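import Mathlib

set_option autoImplicit false

/-!
Odd closed walks contain odd cycles.
-/

namespace Pool.Agent.Helper51.RG

open SimpleGraph

variable {V : Type}

/-- A walk is a path or can be split at a closed subwalk. -/
theorem path_or_split {G : SimpleGraph V} {u v : V} (p : G.Walk u v) :
    p.IsPath ∨ ∃ (x : V) (p₁ : G.Walk u x) (l : G.Walk x x) (p₂ : G.Walk x v),
      0 < l.length ∧ p.length = p₁.length + l.length + p₂.length ∧
      (∀ y ∈ l.support, y ∈ p.support) ∧ (∀ y ∈ (p₁.append p₂).support, y ∈ p.support) := by
  classical
  induction p with
  | nil => left; simp
  | @cons a b c h q ih =>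
    rcases ih with ih | ⟨x, p₁, l, p₂, h1, h2, h3, h4⟩
    · by_cases ha : a ∈ q.support
      · right
        refine ⟨a, Walk.nil, Walk.cons h (q.takeUntil a ha), q.dropUntil a ha, by simp, ?_, ?_, ?_⟩
        · have := congrArg Walk.length (q.take_spec ha)
          rw [Walk.length_append] at this
          simp only [Walk.length_nil, Walk.length_cons]
          omega
        · intro y hy
          rw [Walk.support_cons, List.mem_cons] at hy ⊢
          rcases hy with hy | hy
          · exact Or.inl hy
          · exact Or.inr (q.support_takeUntil_subset_support ha hy)
        · intro y hy
          rw [Walk.nil_append] at hy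
          rw [Walk.support_cons, List.mem_cons]
          exact Or.inr (q.support_dropUntil_subset_support ha hy)
      · left
        rw [Walk.cons_isPath_iff]
        exact ⟨ih, ha⟩
    · right
      refine ⟨x, Walk.cons h p₁, l, p₂, h1, ?_, ?_, ?_⟩
      · simp only [Walk.length_cons]
        omega
      · intro y hy
        rw [Walk.support_cons, List.mem_cons]
        exact Or.inr (h3 y hy)
      · intro y hy
        rw [Walk.cons_append, Walk.support_cons, List.mem_cons] at hy
        rw [Walk.support_cons, List.mem_cons]
        rcases hy with hy | hy
        · exact Or.inl hy
        · exact Or.inr (h4 y hy)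

/-- An odd closed walk contains an odd cycle. -/
theorem exists_odd_cycle {G : SimpleGraph V} : ∀ (n : ℕ) {u : V} (w : G.Walk u u),
    w.length = n → Odd n →
    ∃ (v : V) (c : G.Walk v v), c.IsCycle ∧ Odd c.length ∧ ∀ x ∈ c.support, x ∈ w.support := by
  classical
  intro n
  induction n using Nat.strong_induction_on with
  | _ n ih =>
    intro u w hw hn
    cases w with
    | nil =>
      simp at hw
      subst hw
      exact absurd hn (by decide)
    | @cons _ b _ h q =>
      rcases path_or_split q with hq | ⟨x, p₁, l, p₂, h1, h2, h3, h4⟩
      · by_cases he : s(u, b) ∈ q.edges
        · -- then q has length 1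
          exfalso
          have hq2 : q.length = 1 := by
            cases q with
            | nil => simp at he
            | @cons _ d _ h' q' =>
              rw [Walk.edges_cons, List.mem_cons] at he
              rw [Walk.cons_isPath_iff] at hq
              rcases he with he | he
              · rw [Sym2.eq_iff] at he
                rcases he with ⟨h5, h6⟩ | ⟨h5, h6⟩
                · exact absurd h5 h.ne
                · subst h5
                  have : q' = Walk.nil := by
                    cases q' with
                    | nil => rfl
                    | cons h7 q'' =>
                      have h8 := hq.1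
                      rw [Walk.cons_isPath_iff] at h8
                      exact absurd (Walk.end_mem_support q'') h8.2
                  subst this
                  simp
              · exfalso
                exact hq.2 (Walk.snd_mem_support_of_mem_edges q' he)
          rw [Walk.length_cons, hq2] at hw
          subst hw
          exact absurd hn (by decide)
        · refine ⟨u, Walk.cons h q, ?_, by rw [hw]; exact hn, fun x hx => hx⟩
          rw [Walk.cons_isCycle_iff]
          exact ⟨hq, he⟩
      · rw [Walk.length_cons] at hw
        have hsub : ∀ y ∈ q.support, y ∈ (Walk.cons h q).support := by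
          intro y hy
          rw [Walk.support_cons, List.mem_cons]
          exact Or.inr hy
        by_cases hl : Odd l.length
        · obtain ⟨v, c, hc1, hc2, hc3⟩ := ih l.length (by omega) l rfl hl
          exact ⟨v, c, hc1, hc2, fun y hy => hsub y (h3 y (hc3 y hy))⟩
        · have hlen : (Walk.cons h (p₁.append p₂)).length = n - l.length := by
            rw [Walk.length_cons, Walk.length_append]
            omega
          have hodd : Odd (n - l.length) := by
            rw [Nat.not_odd_iff_even] at hl
            obtain ⟨k, hk⟩ := hn
            obtain ⟨m, hm⟩ := hl
            exact ⟨k - m, by omega⟩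
          obtain ⟨v, c, hc1, hc2, hc3⟩ := ih (n - l.length) (by omega)
            (Walk.cons h (p₁.append p₂)) hlen hodd
          refine ⟨v, c, hc1, hc2, fun y hy => ?_⟩
          have h5 := hc3 y hy
          rw [Walk.support_cons, List.mem_cons] at h5
          rw [Walk.support_cons, List.mem_cons]
          rcases h5 with h5 | h5
          · exact Or.inl h5
          · exact Or.inr (h4 y h5)

end Pool.Agent.Helper51.RG
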