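import Mathlib

set_option autoImplicit false

/-!
Degree constrained subgraphs of bipartite multigraphs (by Hall's theorem) and König's edge
colouring theorem for bipartite regular multigraphs.
-/

namespace Pool.Agent.Helper51.RG

open Finset

section bf

variable {P Q E : Type} [Fintype P] [Fintype Q] [Fintype E]
  [DecidableEq P] [DecidableEq Q] [DecidableEq E]

/-- number of edges at a left vertex. -/
def dP (p : E → P) (x : P) : ℕ := (univ.filter fun e => p e = x).card

theorem sum_dP (p : E → P) (S : Finset P) :
    ∑ x ∈ S, dP p x = (univ.filter fun e => p e ∈ S).card := by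
  classical
  unfold dP
  rw [← Finset.card_biUnion]
  · congr 1
    ext e
    simp
  · intro x _ y _ hxy
    rw [Function.onFun, Finset.disjoint_left]
    intro e he he'
    simp only [mem_filter, mem_univ, true_and] at he he'
    exact hxy (he.symm.trans he')

open Classical in
/-- The neighbourhoods in the gadget graph. -/
noncomputable def nb (p : E → P) (q : E → Q) (b : ℕ) :
    (E ⊕ (Σ y : Q, Fin (dP q y - b))) → Finset (E ⊕ (Σ x : P, Fin (dP p x - b)))
  | Sum.inl e => univ.filter (fun ρ => match ρ with
      | Sum.inl e' => e' = e
      | Sum.inr s => s.1 = p e)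
  | Sum.inr s => univ.filter (fun ρ => match ρ with
      | Sum.inl e' => q e' = s.1
      | Sum.inr _ => False)

theorem card_sig (d : P → ℕ) (S : Finset P) :
    (univ.filter fun s : (Σ x : P, Fin (d x)) => s.1 ∈ S).card = ∑ x ∈ S, d x := by
  classical
  have h : (univ.filter fun s : (Σ x : P, Fin (d x)) => s.1 ∈ S)
      = S.sigma (fun x => (univ : Finset (Fin (d x)))) := by
    ext s
    simp
  rw [h, Finset.card_sigma]
  simp

theorem hall_gadget (p : E → P) (q : E → Q) (b : ℕ)
    (hbP : ∀ x, b ≤ dP p x) (hbQ : ∀ y, b ≤ dP q y)
    (h : ∀ (S : Finset P) (T : Finset Q), b * S.card ≤ b * T.card +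
      (univ.filter fun e => p e ∈ S ∧ q e ∉ T).card)
    (A : Finset (E ⊕ (Σ y : Q, Fin (dP q y - b)))) :
    A.card ≤ (A.biUnion (nb p q b)).card := by
  classical
  set A1 : Finset E := univ.filter fun e => Sum.inl e ∈ A with hA1
  set A2 : Finset (Σ y : Q, Fin (dP q y - b)) := univ.filter fun s => Sum.inr s ∈ A with hA2
  set T : Finset Q := A2.image Sigma.fst with hT
  set S : Finset P := A1.image p with hS
  have hcard : A.card = A1.card + A2.card := by
    have h1 : A = A1.disjSum A2 := by
      ext a
      rcases a with e | s <;> simp [hA1, hA2]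
    conv_lhs => rw [h1]
    rw [Finset.card_disjSum]
  have hA2c : A2.card ≤ ∑ y ∈ T, (dP q y - b) := by
    rw [← card_sig (fun y => dP q y - b) T]
    refine Finset.card_le_card ?_
    intro s hs
    simp only [mem_filter, mem_univ, true_and]
    exact mem_image_of_mem _ hs
  have hN : (A1 ∪ univ.filter fun e => q e ∈ T).card + ∑ x ∈ S, (dP p x - b)
      ≤ (A.biUnion (nb p q b)).card := by
    rw [← card_sig (fun x => dP p x - b) S, ← Finset.card_disjSum]
    refine Finset.card_le_card ?_
    intro ρ hρ
    rw [Finset.mem_biUnion]
    rcases ρ with e | s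
    · rw [Finset.inl_mem_disjSum, Finset.mem_union] at hρ
      rcases hρ with he | he
      · refine ⟨Sum.inl e, by simpa [hA1] using he, ?_⟩
        simp [nb]
      · rw [Finset.mem_filter, hT, Finset.mem_image] at he
        obtain ⟨-, s, hs, hse⟩ := he
        refine ⟨Sum.inr s, by simpa [hA2] using hs, ?_⟩
        simp [nb, hse]
    · rw [Finset.inr_mem_disjSum, Finset.mem_filter, hS, Finset.mem_image] at hρ
      obtain ⟨-, e, he, hse⟩ := hρ
      refine ⟨Sum.inl e, by simpa [hA1] using he, ?_⟩
      simp [nb, hse]
  refine le_trans ?_ hN
  rw [hcard]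
  have e1 : (A1 ∪ univ.filter fun e => q e ∈ T).card
      = (univ.filter fun e => q e ∈ T).card + (A1.filter fun e => q e ∉ T).card := by
    rw [← Finset.card_union_of_disjoint]
    · congr 1
      ext e
      simp only [mem_union, mem_filter, mem_univ, true_and]
      tauto
    · rw [Finset.disjoint_left]
      intro e he he'
      simp only [mem_filter, mem_univ, true_and] at he he'
      exact he'.2 he
  have e2 : A1.card = (A1.filter fun e => q e ∈ T).card + (A1.filter fun e => q e ∉ T).card :=
    (Finset.card_filter_add_card_filter_not (s := A1) (fun e => q e ∈ T)).symm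
  have e3 : (A1.filter fun e => q e ∈ T).card
      ≤ (univ.filter fun e => p e ∈ S ∧ q e ∈ T).card := by
    refine Finset.card_le_card ?_
    intro e he
    rw [mem_filter] at he
    simp only [mem_filter, mem_univ, true_and]
    exact ⟨mem_image_of_mem _ he.1, he.2⟩
  have e4 : (univ.filter fun e => p e ∈ S).card
      = (univ.filter fun e => p e ∈ S ∧ q e ∈ T).card
        + (univ.filter fun e => p e ∈ S ∧ q e ∉ T).card := by
    have := Finset.card_filter_add_card_filter_not (s := univ.filter fun e => p e ∈ S)
      (fun e => q e ∈ T)
    rw [Finset.filter_filter, Finset.filter_filter] at this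
    exact this.symm
  have e5 := sum_dP p S
  have e6 := sum_dP q T
  have e7 : ∑ x ∈ S, (dP p x - b) + b * S.card = ∑ x ∈ S, dP p x := by
    rw [mul_comm, ← smul_eq_mul, ← Finset.sum_const, ← Finset.sum_add_distrib]
    exact Finset.sum_congr rfl fun x _ => Nat.sub_add_cancel (hbP x)
  have e8 : ∑ y ∈ T, (dP q y - b) + b * T.card = ∑ y ∈ T, dP q y := by
    rw [mul_comm, ← smul_eq_mul, ← Finset.sum_const, ← Finset.sum_add_distrib]
    exact Finset.sum_congr rfl fun x _ => Nat.sub_add_cancel (hbQ x)
  have e9 := h S T
  omega

/-- A bipartite multigraph with equal sides whose cuts are large has a `b`-factor. -/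
theorem bfactor (p : E → P) (q : E → Q) (b : ℕ) (hPQ : Fintype.card P = Fintype.card Q)
    (h : ∀ (S : Finset P) (T : Finset Q), b * S.card ≤ b * T.card +
      (univ.filter fun e => p e ∈ S ∧ q e ∉ T).card) :
    ∃ X : Finset E, (∀ x, (X.filter fun e => p e = x).card = b) ∧
      (∀ y, (X.filter fun e => q e = y).card = b) := by
  classical
  have hbP : ∀ x, b ≤ dP p x := by
    intro x
    have := h {x} ∅
    simpa [dP] using this
  have hbQ : ∀ y, b ≤ dP q y := by
    intro y
    have h1 := h univ (univ.erase y)
    have h2 : (univ.erase y).card + 1 = Fintype.card Q := by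
      rw [Finset.card_erase_add_one (mem_univ y), Finset.card_univ]
    have h3 : (univ.filter fun e => p e ∈ (univ : Finset P) ∧ q e ∉ univ.erase y) =
        univ.filter fun e => q e = y := by
      ext e
      simp
    rw [h3, Finset.card_univ, hPQ, ← h2, mul_add, mul_one] at h1
    unfold dP
    omega
  have hall := (Finset.all_card_le_biUnion_card_iff_exists_injective (nb p q b)).mp
    (hall_gadget p q b hbP hbQ h)
  obtain ⟨f, hf, hft⟩ := hall
  have hcard : Fintype.card (E ⊕ (Σ y : Q, Fin (dP q y - b)))
      = Fintype.card (E ⊕ (Σ x : P, Fin (dP p x - b))) := by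
    rw [Fintype.card_sum, Fintype.card_sum, Fintype.card_sigma, Fintype.card_sigma]
    simp only [Fintype.card_fin]
    congr 1
    have e5 := sum_dP p univ
    have e6 := sum_dP q univ
    simp only [mem_univ] at e5 e6
    have e7 : ∑ x : P, (dP p x - b) + b * Fintype.card P = ∑ x : P, dP p x := by
      rw [mul_comm, ← smul_eq_mul, ← Finset.card_univ, ← Finset.sum_const,
        ← Finset.sum_add_distrib]
      exact Finset.sum_congr rfl fun x _ => Nat.sub_add_cancel (hbP x)
    have e8 : ∑ y : Q, (dP q y - b) + b * Fintype.card Q = ∑ y : Q, dP q y := by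
      rw [mul_comm, ← smul_eq_mul, ← Finset.card_univ, ← Finset.sum_const,
        ← Finset.sum_add_distrib]
      exact Finset.sum_congr rfl fun x _ => Nat.sub_add_cancel (hbQ x)
    rw [hPQ] at e7
    omega
  have hbij : Function.Bijective f := (Fintype.bijective_iff_injective_and_card f).mpr ⟨hf, hcard⟩
  refine ⟨univ.filter fun e => f (Sum.inl e) = Sum.inl e, ?_, ?_⟩
  · intro x
    have h1 : ((univ.filter fun e => p e = x ∧ f (Sum.inl e) ≠ Sum.inl e)).card
        = dP p x - b := by
      have h2 : (univ.filter fun e => p e = x ∧ f (Sum.inl e) ≠ Sum.inl e).image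
          (fun e => f (Sum.inl e))
          = (univ.filter fun s : (Σ x : P, Fin (dP p x - b)) => s.1 ∈ ({x} : Finset P)).image
            Sum.inr := by
        ext ρ
        simp only [mem_image, mem_filter, mem_univ, true_and, mem_singleton]
        constructor
        · rintro ⟨e, ⟨he, hne⟩, rfl⟩
          have h3 := hft (Sum.inl e)
          rcases hfe : f (Sum.inl e) with e' | s
          · rw [hfe] at h3
            simp only [nb, mem_filter, mem_univ, true_and] at h3
            exact absurd (by rw [hfe, h3]) hne
          · rw [hfe] at h3
            simp only [nb, mem_filter, mem_univ, true_and] at h3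
            exact ⟨s, h3.trans he, rfl⟩
        · rintro ⟨s, hs, rfl⟩
          obtain ⟨l, hl⟩ := hbij.2 (Sum.inr s)
          have h3 := hft l
          rcases l with e | s'
          · rw [hl] at h3
            simp only [nb, mem_filter, mem_univ, true_and] at h3
            refine ⟨e, ⟨h3.symm.trans hs, ?_⟩, hl⟩
            rw [hl]
            exact fun h => by cases h
          · rw [hl] at h3
            simp [nb] at h3
      have h4 := congrArg Finset.card h2
      rw [show (fun e : E => f (Sum.inl e)) = f ∘ Sum.inl from rfl,
        Finset.card_image_of_injective _ (hf.comp Sum.inl_injective),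
        Finset.card_image_of_injective _ Sum.inr_injective,
        card_sig (fun x => dP p x - b)] at h4
      simpa using h4
    have h5 := Finset.card_filter_add_card_filter_not (s := univ.filter fun e => p e = x)
      (fun e => f (Sum.inl e) = Sum.inl e)
    rw [Finset.filter_filter, Finset.filter_filter] at h5
    have h6 : (univ.filter fun e => f (Sum.inl e) = Sum.inl e).filter (fun e => p e = x)
        = univ.filter fun e => p e = x ∧ f (Sum.inl e) = Sum.inl e := by
      ext e
      simp [and_comm]
    rw [h6]
    have h7 := hbP x
    have h8 : (univ.filter fun e => p e = x).card = dP p x := rfl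
    simp only [ne_eq] at h1
    omega
  · intro y
    have h1 : ((univ.filter fun e => q e = y ∧ f (Sum.inl e) ≠ Sum.inl e)).card
        = dP q y - b := by
      have h2 : (univ.filter fun e => q e = y ∧ f (Sum.inl e) ≠ Sum.inl e).image Sum.inl
          = (univ.filter fun s : (Σ y : Q, Fin (dP q y - b)) => s.1 ∈ ({y} : Finset Q)).image
            (fun s => f (Sum.inr s)) := by
        ext ρ
        simp only [mem_image, mem_filter, mem_univ, true_and, mem_singleton]
        constructor
        · rintro ⟨e, ⟨he, hne⟩, rfl⟩
          obtain ⟨l, hl⟩ := hbij.2 (Sum.inl e)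
          have h3 := hft l
          rcases l with e' | s
          · rw [hl] at h3
            simp only [nb, mem_filter, mem_univ, true_and] at h3
            rw [← h3] at hl
            exact absurd hl hne
          · rw [hl] at h3
            simp only [nb, mem_filter, mem_univ, true_and] at h3
            exact ⟨s, h3.symm.trans he, hl⟩
        · rintro ⟨s, hs, rfl⟩
          have h3 := hft (Sum.inr s)
          rcases hfe : f (Sum.inr s) with e' | s'
          · rw [hfe] at h3
            simp only [nb, mem_filter, mem_univ, true_and] at h3
            refine ⟨e', ⟨h3.trans hs, ?_⟩, rfl⟩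
            intro h4
            have h5 := hf (h4.trans hfe.symm)
            cases h5
          · rw [hfe] at h3
            simp [nb] at h3
      have h4 := congrArg Finset.card h2
      rw [show (fun s : (Σ y : Q, Fin (dP q y - b)) => f (Sum.inr s)) = f ∘ Sum.inr from rfl,
        Finset.card_image_of_injective _ (hf.comp Sum.inr_injective),
        Finset.card_image_of_injective _ Sum.inl_injective,
        card_sig (fun y => dP q y - b)] at h4
      simpa using h4
    have h5 := Finset.card_filter_add_card_filter_not (s := univ.filter fun e => q e = y)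
      (fun e => f (Sum.inl e) = Sum.inl e)
    rw [Finset.filter_filter, Finset.filter_filter] at h5
    have h6 : (univ.filter fun e => f (Sum.inl e) = Sum.inl e).filter (fun e => q e = y)
        = univ.filter fun e => q e = y ∧ f (Sum.inl e) = Sum.inl e := by
      ext e
      simp [and_comm]
    rw [h6]
    have h7 := hbQ y
    have h8 : (univ.filter fun e => q e = y).card = dP q y := rfl
    simp only [ne_eq] at h1
    omega

end bf

/-- König's theorem: `k`-regular bipartite multigraphs are `k`-edge-colourable. -/
theorem konig {P Q : Type} [Fintype P] [Fintype Q] [DecidableEq P] [DecidableEq Q] (k : ℕ) :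
    ∀ (E : Type) [Fintype E] (p : E → P) (q : E → Q),
      (∀ x, (univ.filter fun e => p e = x).card = k) →
      (∀ y, (univ.filter fun e => q e = y).card = k) →
      ∃ c : E → Fin k, ∀ e₁ e₂, e₁ ≠ e₂ → (p e₁ = p e₂ ∨ q e₁ = q e₂) → c e₁ ≠ c e₂ := by
  classical
  induction k with
  | zero =>
    intro E _ p q hp hq
    have hE : ∀ e : E, False := by
      intro e
      have := hp (p e)
      rw [Finset.card_eq_zero] at this
      have h2 : e ∈ univ.filter fun e' => p e' = p e := by simp
      rw [this] at h2
      simp at h2
    exact ⟨fun e => (hE e).elim, fun e => (hE e).elim⟩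
  | succ k ih =>
    intro E _ p q hp hq
    have sumP : ∀ S : Finset P, (univ.filter fun e => p e ∈ S).card = (k + 1) * S.card := by
      intro S
      rw [← sum_dP p S]
      have : ∀ x ∈ S, dP p x = k + 1 := fun x _ => hp x
      rw [Finset.sum_congr rfl this, Finset.sum_const, smul_eq_mul, mul_comm]
    have sumQ : ∀ S : Finset Q, (univ.filter fun e => q e ∈ S).card = (k + 1) * S.card := by
      intro S
      rw [← sum_dP q S]
      have : ∀ x ∈ S, dP q x = k + 1 := fun x _ => hq x
      rw [Finset.sum_congr rfl this, Finset.sum_const, smul_eq_mul, mul_comm]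
    have hPQ : Fintype.card P = Fintype.card Q := by
      have h1 := sumP univ
      have h2 := sumQ univ
      simp only [mem_univ, Finset.filter_true, Finset.card_univ] at h1 h2
      exact Nat.eq_of_mul_eq_mul_left (Nat.succ_pos k) (h1.symm.trans h2)
    obtain ⟨X, hX1, hX2⟩ := bfactor p q 1 hPQ (by
      intro S T
      have h1 := sumP S
      have h2 := sumQ T
      have h3 := Finset.card_filter_add_card_filter_not (s := univ.filter fun e => p e ∈ S)
        (fun e => q e ∈ T)
      rw [Finset.filter_filter, Finset.filter_filter] at h3
      have h4 : (univ.filter fun e => p e ∈ S ∧ q e ∈ T).card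
          ≤ (univ.filter fun e => q e ∈ T).card := by
        refine Finset.card_le_card fun e he => ?_
        simp only [mem_filter, mem_univ, true_and] at he ⊢
        exact he.2
      by_contra hcon
      push Not at hcon
      have h5 : T.card + 1 ≤ S.card := by omega
      have h6 : (univ.filter fun e => p e ∈ S ∧ q e ∉ T).card + T.card + 1 ≤ S.card := by omega
      have h7 : (k + 1) * ((univ.filter fun e => p e ∈ S ∧ q e ∉ T).card + T.card + 1)
          ≤ (k + 1) * S.card := Nat.mul_le_mul_left _ h6
      rw [mul_add, mul_add, mul_one] at h7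
      have h8 : (univ.filter fun e => p e ∈ S ∧ q e ∉ T).card
          ≤ (k + 1) * (univ.filter fun e => p e ∈ S ∧ q e ∉ T).card :=
        Nat.le_mul_of_pos_left _ (Nat.succ_pos k)
      omega)
    have hdeg : ∀ (R : Type) [DecidableEq R] (g : E → R) (x : R),
        (univ.filter fun e => g e = x).card = k + 1 → (X.filter fun e => g e = x).card = 1 →
        (univ.filter fun e : {e // e ∉ X} => g e.1 = x).card = k := by
      intro R _ g x h1 h2
      have h3 : (univ.filter fun e : {e // e ∉ X} => g e.1 = x).card
          = ((univ.filter fun e => g e = x).filter fun e => e ∉ X).card := by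
        rw [← Finset.card_map (Function.Embedding.subtype _)]
        congr 1
        ext e
        simp only [mem_map, mem_filter, mem_univ, true_and, Function.Embedding.subtype_apply,
          Subtype.exists, exists_and_right, exists_eq_right]
        constructor
        · rintro ⟨h, h'⟩
          exact ⟨h', h⟩
        · rintro ⟨h, h'⟩
          exact ⟨h', h⟩
      have h4 := Finset.card_filter_add_card_filter_not (s := univ.filter fun e => g e = x)
        (fun e => e ∈ X)
      have h5 : (univ.filter fun e => g e = x).filter (fun e => e ∈ X)
          = X.filter fun e => g e = x := by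
        ext e
        simp [and_comm]
      rw [h5] at h4
      omega
    obtain ⟨c, hc⟩ := ih {e // e ∉ X} (fun e => p e.1) (fun e => q e.1)
      (fun x => hdeg P p x (hp x) (hX1 x)) (fun y => hdeg Q q y (hq y) (hX2 y))
    refine ⟨fun e => if h : e ∉ X then (c ⟨e, h⟩).castSucc else Fin.last k, ?_⟩
    intro e₁ e₂ hne hpq
    by_cases h1 : e₁ ∈ X <;> by_cases h2 : e₂ ∈ X
    · exfalso
      apply hne
      rcases hpq with h | h
      · have := Finset.card_le_one.mp (le_of_eq (hX1 (p e₂))) e₁ (by simp [h1, h]) e₂
          (by simp [h2])
        exact this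
      · have := Finset.card_le_one.mp (le_of_eq (hX2 (q e₂))) e₁ (by simp [h1, h]) e₂
          (by simp [h2])
        exact this
    · simp only [h1, h2, not_true_eq_false, not_false_eq_true, dite_true, dite_false]
      exact fun h => absurd h.symm (Fin.castSucc_lt_last _).ne
    · simp only [h1, h2, not_true_eq_false, not_false_eq_true, dite_true, dite_false]
      exact fun h => absurd h (Fin.castSucc_lt_last _).ne
    · simp only [h1, h2, not_false_eq_true, dite_true]
      intro h
      exact hc ⟨e₁, h1⟩ ⟨e₂, h2⟩ (fun h => hne (congrArg Subtype.val h)) hpq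
        (Fin.castSucc_injective _ h)

end Pool.Agent.Helper51.RG
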