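import Mathlib
import Pool.Agent.Helper51.RG.BFactor

set_option autoImplicit false

/-!
The theorems of `BFactor` for multigraphs given by `ends : E → Sym2 V`.
-/

namespace Pool.Agent.Helper51.RG

open Finset

variable {V : Type} [Fintype V] [DecidableEq V]

/-- Proper edge colouring of a multigraph. -/
def Proper {E C : Type} (ends : E → Sym2 V) (c : E → C) : Prop :=
  ∀ e₁ e₂ : E, e₁ ≠ e₂ → (∃ v, v ∈ ends e₁ ∧ v ∈ ends e₂) → c e₁ ≠ c e₂

theorem konigSym {E : Type} [Fintype E] (ends : E → Sym2 V) (side : V → Prop) (k : ℕ)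
    (hb : ∀ e, ∃ x y, side x ∧ ¬ side y ∧ ends e = s(x, y))
    (hd : ∀ v, (univ.filter fun e => v ∈ ends e).card = k) :
    ∃ c : E → Fin k, Proper ends c := by
  classical
  choose x y hx hy he using hb
  obtain ⟨c, hc⟩ := konig (P := {v // side v}) (Q := {v // ¬ side v}) k E
    (fun e => ⟨x e, hx e⟩) (fun e => ⟨y e, hy e⟩) (by
      rintro ⟨v, hv⟩
      rw [← hd v]
      congr 1
      ext e
      simp only [Subtype.mk.injEq, mem_filter, mem_univ, true_and]
      rw [he e, Sym2.mem_iff]
      constructor
      · intro h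
        exact Or.inl h.symm
      · rintro (h | h)
        · exact h.symm
        · exact absurd (h ▸ hv) (hy e)) (by
      rintro ⟨v, hv⟩
      rw [← hd v]
      congr 1
      ext e
      simp only [Subtype.mk.injEq, mem_filter, mem_univ, true_and]
      rw [he e, Sym2.mem_iff]
      constructor
      · intro h
        exact Or.inr h.symm
      · rintro (h | h)
        · exact absurd (hx e) (h ▸ hv)
        · exact h.symm)
  refine ⟨c, ?_⟩
  rintro e₁ e₂ hne ⟨v, h1, h2⟩
  apply hc e₁ e₂ hne
  rw [he, Sym2.mem_iff] at h1 h2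
  simp only [Subtype.mk.injEq]
  rcases h1 with h1 | h1 <;> rcases h2 with h2 | h2
  · left
    rw [← h1, h2]
  · exfalso
    apply hy e₂
    rw [← h2, h1]
    exact hx e₁
  · exfalso
    apply hy e₁
    rw [← h1, h2]
    exact hx e₂
  · right
    rw [← h1, h2]

/-- Factor theorem: `H` a set of edges between the two sides. -/
theorem bfactorSym {E : Type} [Fintype E] [DecidableEq E] (ends : E → Sym2 V) (side : V → Prop)
    (H : Finset E) (b : ℕ)
    (hb : ∀ e ∈ H, ∃ x y, side x ∧ ¬ side y ∧ ends e = s(x, y))
    (hcard : Nat.card {v // side v} = Nat.card {v // ¬ side v})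
    (h : ∀ S T : Finset V, (∀ x ∈ S, side x) → (∀ y ∈ T, ¬ side y) →
      ∃ F : Finset E, F ⊆ H ∧ (∀ e ∈ F, ∃ x ∈ S, ∃ y, y ∉ T ∧ ¬ side y ∧ ends e = s(x, y)) ∧
        b * S.card ≤ b * T.card + F.card) :
    ∃ X ⊆ H, ∀ v, (X.filter fun e => v ∈ ends e).card = b := by
  classical
  have hb' : ∀ e : {e // e ∈ H}, ∃ x y, side x ∧ ¬ side y ∧ ends e.1 = s(x, y) :=
    fun e => hb e.1 e.2
  choose x y hx hy he using hb'
  obtain ⟨X, hX1, hX2⟩ := bfactor (P := {v // side v}) (Q := {v // ¬ side v})
    (E := {e // e ∈ H}) (fun e => ⟨x e, hx e⟩) (fun e => ⟨y e, hy e⟩) b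
    (by rw [← Nat.card_eq_fintype_card, ← Nat.card_eq_fintype_card]; exact hcard) (by
      intro S T
      obtain ⟨F, hFH, hF, hle⟩ := h (S.map (Function.Embedding.subtype _))
        (T.map (Function.Embedding.subtype _)) (by
          intro x hx
          simp only [mem_map, Function.Embedding.subtype_apply] at hx
          obtain ⟨x', -, rfl⟩ := hx
          exact x'.2) (by
          intro x hx
          simp only [mem_map, Function.Embedding.subtype_apply] at hx
          obtain ⟨x', -, rfl⟩ := hx
          exact x'.2)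
      rw [Finset.card_map, Finset.card_map] at hle
      refine hle.trans (Nat.add_le_add_left ?_ _)
      have h1 : F.card ≤ ((univ.filter fun e : {e // e ∈ H} =>
          (⟨x e, hx e⟩ : {v // side v}) ∈ S ∧ (⟨y e, hy e⟩ : {v // ¬ side v}) ∉ T).map
          (Function.Embedding.subtype _)).card := by
        refine Finset.card_le_card fun e heF => ?_
        simp only [mem_map, mem_filter, mem_univ, true_and, Function.Embedding.subtype_apply]
        refine ⟨⟨e, hFH heF⟩, ?_, rfl⟩
        obtain ⟨a, ha, c, hc, hc', hac⟩ := hF e heF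
        rw [he ⟨e, hFH heF⟩] at hac
        simp only [mem_map, Function.Embedding.subtype_apply] at ha hc
        obtain ⟨a', haS, rfl⟩ := ha
        rw [Sym2.eq_iff] at hac
        rcases hac with ⟨h1, h2⟩ | ⟨h1, h2⟩
        · constructor
          · have : (⟨x ⟨e, hFH heF⟩, hx ⟨e, hFH heF⟩⟩ : {v // side v}) = a' := Subtype.ext h1
            rw [this]
            exact haS
          · intro hmem
            exact hc ⟨_, hmem, h2⟩
        · exfalso
          apply hy ⟨e, hFH heF⟩
          rw [h2]
          exact a'.2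
      rw [Finset.card_map] at h1
      exact h1)
  refine ⟨X.map (Function.Embedding.subtype _), ?_, ?_⟩
  · intro e he
    simp only [mem_map, Function.Embedding.subtype_apply] at he
    obtain ⟨e', -, rfl⟩ := he
    exact e'.2
  · intro v
    by_cases hv : side v
    · rw [← hX1 ⟨v, hv⟩, ← Finset.card_map (Function.Embedding.subtype _)]
      congr 1
      ext e
      simp only [mem_map, mem_filter, Function.Embedding.subtype_apply, Subtype.mk.injEq]
      constructor
      · rintro ⟨⟨e', he', rfl⟩, hve⟩
        refine ⟨e', ⟨he', ?_⟩, rfl⟩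
        rw [he e', Sym2.mem_iff] at hve
        rcases hve with h | h
        · exact h.symm
        · exact absurd (h ▸ hv) (hy e')
      · rintro ⟨e', ⟨he', hxe⟩, rfl⟩
        refine ⟨⟨e', he', rfl⟩, ?_⟩
        rw [he e', Sym2.mem_iff]
        exact Or.inl hxe.symm
    · rw [← hX2 ⟨v, hv⟩, ← Finset.card_map (Function.Embedding.subtype _)]
      congr 1
      ext e
      simp only [mem_map, mem_filter, Function.Embedding.subtype_apply, Subtype.mk.injEq]
      constructor
      · rintro ⟨⟨e', he', rfl⟩, hve⟩
        refine ⟨e', ⟨he', ?_⟩, rfl⟩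
        rw [he e', Sym2.mem_iff] at hve
        rcases hve with h | h
        · exact absurd (hx e') (h ▸ hv)
        · exact h.symm
      · rintro ⟨e', ⟨he', hxe⟩, rfl⟩
        refine ⟨⟨e', he', rfl⟩, ?_⟩
        rw [he e', Sym2.mem_iff]
        exact Or.inr hxe.symm

/-- Colourings of two complementary edge sets combine. -/
theorem combine {E : Type} (ends : E → Sym2 V) (X : E → Prop) (k l r : ℕ) (hr : k + l = r)
    (h1 : ∃ c : {e // X e} → Fin k, Proper (fun e => ends e.1) c)
    (h2 : ∃ c : {e // ¬ X e} → Fin l, Proper (fun e => ends e.1) c) :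
    ∃ c : E → Fin r, Proper ends c := by
  classical
  subst hr
  obtain ⟨c1, hc1⟩ := h1
  obtain ⟨c2, hc2⟩ := h2
  refine ⟨fun e => if h : X e then Fin.castAdd l (c1 ⟨e, h⟩) else Fin.natAdd k (c2 ⟨e, h⟩), ?_⟩
  rintro e₁ e₂ hne hv
  by_cases h1 : X e₁ <;> by_cases h2 : X e₂
  · simp only [h1, h2, dite_true]
    intro h
    exact hc1 ⟨e₁, h1⟩ ⟨e₂, h2⟩ (fun h => hne (congrArg Subtype.val h)) hv
      (Fin.castAdd_injective _ _ h)
  · simp only [h1, h2, dite_true, dite_false]
    intro h
    have := congrArg Fin.val h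
    simp only [Fin.val_castAdd, Fin.val_natAdd] at this
    omega
  · simp only [h1, h2, dite_true, dite_false]
    intro h
    have := congrArg Fin.val h
    simp only [Fin.val_castAdd, Fin.val_natAdd] at this
    omega
  · simp only [h1, h2, dite_false]
    intro h
    exact hc2 ⟨e₁, h1⟩ ⟨e₂, h2⟩ (fun h => hne (congrArg Subtype.val h)) hv
      (Fin.natAdd_injective _ _ h)

/-- Degrees in an edge set. -/
theorem card_sub {E : Type} [Fintype E] (f : E → Prop) (X : E → Prop)
    [Fintype {e // X e}] [DecidablePred fun e : {e // X e} => f e.1]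
    [DecidablePred fun e => X e ∧ f e] :
    (univ.filter fun e : {e // X e} => f e.1).card = (univ.filter fun e => X e ∧ f e).card := by
  classical
  rw [← Finset.card_map (Function.Embedding.subtype _)]
  congr 1
  ext e
  simp only [mem_map, mem_filter, mem_univ, true_and, Function.Embedding.subtype_apply,
    Subtype.exists, exists_and_right, exists_eq_right]
  constructor
  · rintro ⟨h, h'⟩
    exact ⟨h, h'⟩
  · rintro ⟨h, h'⟩
    exact ⟨h, h'⟩

end Pool.Agent.Helper51.RG
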