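import Mathlib
import Pool.Agent.Helper51.RG.Sym

set_option autoImplicit false

/-!
Counting edges between the classes of a partition of the vertices.
-/

namespace Pool.Agent.Helper51.RG

open Finset

variable {V E : Type} [Fintype V] [Fintype E]

open Classical in
/-- Multiplicity of the pair `x, y`. -/
noncomputable def wt (ends : E → Sym2 V) (x y : V) : ℕ :=
  (univ.filter fun e => ends e = s(x, y)).card

open Classical in
/-- number of (ordered) pairs of the two classes, with multiplicity. -/
noncomputable def nn {n : ℕ} (ends : E → Sym2 V) (cls : V → Fin n) (k : Fin n × Fin n) : ℕ :=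
  ∑ z ∈ univ.filter (fun z : V × V => (cls z.1, cls z.2) = k), wt ends z.1 z.2

theorem wt_comm (ends : E → Sym2 V) (x y : V) : wt ends x y = wt ends y x := by
  unfold wt
  rw [Sym2.eq_swap]

theorem wt_self (ends : E → Sym2 V) (hl : ∀ e, ¬ (ends e).IsDiag) (x : V) :
    wt ends x x = 0 := by
  classical
  unfold wt
  rw [Finset.card_eq_zero, Finset.filter_eq_empty_iff]
  intro e _ he
  apply hl e
  rw [he]
  exact rfl

theorem nn_comm {n : ℕ} (ends : E → Sym2 V) (cls : V → Fin n) (i j : Fin n) :
    nn ends cls (i, j) = nn ends cls (j, i) := by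
  classical
  unfold nn
  refine Finset.sum_nbij' Prod.swap Prod.swap ?_ ?_ ?_ ?_ ?_
  · rintro ⟨x, y⟩ h
    simp only [mem_filter, mem_univ, true_and, Prod.mk.injEq, Prod.swap] at h ⊢
    exact ⟨h.2, h.1⟩
  · rintro ⟨x, y⟩ h
    simp only [mem_filter, mem_univ, true_and, Prod.mk.injEq, Prod.swap] at h ⊢
    exact ⟨h.2, h.1⟩
  · intro z _
    rfl
  · intro z _
    rfl
  · intro z _
    exact wt_comm ends _ _

theorem nn_zero {n : ℕ} (ends : E → Sym2 V) (cls : V → Fin n) (i j : Fin n)
    (h : ∀ x y, cls x = i → cls y = j → wt ends x y = 0) : nn ends cls (i, j) = 0 := by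
  classical
  unfold nn
  refine Finset.sum_eq_zero ?_
  rintro ⟨x, y⟩ hz
  simp only [mem_filter, mem_univ, true_and, Prod.mk.injEq] at hz
  exact h x y hz.1 hz.2

open Classical in
theorem sum_wt (ends : E → Sym2 V) (hl : ∀ e, ¬ (ends e).IsDiag) (x : V) :
    ∑ y, wt ends x y = (univ.filter fun e => x ∈ ends e).card := by
  unfold wt
  rw [← Finset.card_biUnion]
  · congr 1
    ext e
    simp only [mem_biUnion, mem_filter, mem_univ, true_and]
    constructor
    · rintro ⟨y, hy⟩
      rw [hy]
      exact Sym2.mem_mk_left x y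
    · intro h
      exact ⟨Sym2.Mem.other h, (Sym2.other_spec h).symm⟩
  · intro y _ z _ hyz
    rw [Function.onFun, Finset.disjoint_left]
    intro e he he'
    simp only [mem_filter, mem_univ, true_and] at he he'
    rw [he, Sym2.congr_right] at he'
    exact hyz he'

open Classical in
theorem sum_nn {n r : ℕ} (ends : E → Sym2 V) (hl : ∀ e, ¬ (ends e).IsDiag)
    (hr : ∀ v, (univ.filter fun e => v ∈ ends e).card = r) (cls : V → Fin n) (i : Fin n) :
    ∑ j, nn ends cls (i, j) = r * (univ.filter fun x => cls x = i).card := by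
  have h1 : ∑ j, nn ends cls (i, j) = ∑ x ∈ univ.filter (fun x => cls x = i), ∑ y, wt ends x y := by
    unfold nn
    rw [← Finset.sum_product']
    rw [← Finset.sum_fiberwise_of_maps_to (s := (univ.filter fun x => cls x = i) ×ˢ univ)
      (t := univ) (g := fun z : V × V => cls z.2) (fun _ _ => mem_univ _)]
    refine Finset.sum_congr rfl fun j _ => Finset.sum_congr ?_ fun _ _ => rfl
    ext ⟨x, y⟩
    simp
  rw [h1, Finset.sum_congr rfl (fun x _ => (sum_wt ends hl x).trans (hr x)), Finset.sum_const,
    smul_eq_mul, mul_comm]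

open Classical in
theorem card_pairs {n : ℕ} (ends : E → Sym2 V) (cls : V → Fin n) (K : Finset (Fin n × Fin n))
    (hK : ∀ i j, (i, j) ∈ K → (j, i) ∉ K) :
    (univ.filter fun e => ∃ x y, (cls x, cls y) ∈ K ∧ ends e = s(x, y)).card
      = ∑ k ∈ K, nn ends cls k := by
  have h1 : ∑ k ∈ K, nn ends cls k
      = ∑ z ∈ univ.filter (fun z : V × V => (cls z.1, cls z.2) ∈ K), wt ends z.1 z.2 := by
    unfold nn
    rw [← Finset.sum_fiberwise_of_maps_to
      (s := univ.filter (fun z : V × V => (cls z.1, cls z.2) ∈ K)) (t := K)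
      (g := fun z : V × V => (cls z.1, cls z.2)) (by
        intro z hz
        simp only [mem_filter, mem_univ, true_and] at hz
        exact hz)]
    refine Finset.sum_congr rfl fun k hk => Finset.sum_congr ?_ fun _ _ => rfl
    ext z
    simp only [mem_filter, mem_univ, true_and]
    constructor
    · intro h
      exact ⟨h ▸ hk, h⟩
    · intro h
      exact h.2
  rw [h1]
  unfold wt
  rw [← Finset.card_biUnion]
  · congr 1
    ext e
    simp only [mem_biUnion, mem_filter, mem_univ, true_and, Prod.exists]
  · rintro ⟨x, y⟩ hz ⟨x', y'⟩ hz' hne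
    rw [Function.onFun, Finset.disjoint_left]
    intro e he he'
    simp only [mem_coe, mem_filter, mem_univ, true_and] at he he' hz hz'
    rw [he, Sym2.eq_iff] at he'
    rcases he' with ⟨h1, h2⟩ | ⟨h1, h2⟩
    · exact hne (by rw [h1, h2])
    · rw [← h1, ← h2] at hz'
      exact hK _ _ hz hz'

end Pool.Agent.Helper51.RG
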