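import Mathlib
import Pool.Agent.Helper51.RG.Count

set_option autoImplicit false

/-!
`r`-graphs that become bipartite after removing two vertices are class 1.
-/

namespace Pool.Agent.Helper51.RG

open Finset

variable {V E : Type} [Fintype V] [Fintype E]

open Classical in
/-- four classes. -/
noncomputable def cls4 (u v : V) (side : V → Prop) (x : V) : Fin 4 :=
  if x = u then 2 else if x = v then 3 else if side x then 0 else 1

open Classical in
/-- six classes. -/
noncomputable def cls6 (u v : V) (side : V → Prop) (S T : Finset V) (x : V) : Fin 6 :=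
  if x = u then 4 else if x = v then 5 else
    if side x then (if x ∈ S then 0 else 1) else (if x ∈ T then 2 else 3)

section c4

variable (u v : V) (side : V → Prop)

theorem c4u : cls4 u v side u = 2 := by simp [cls4]

theorem c4v (huv : u ≠ v) : cls4 u v side v = 3 := by simp [cls4, huv.symm]

theorem c4_0 (x : V) : cls4 u v side x = 0 ↔ x ≠ u ∧ x ≠ v ∧ side x := by
  unfold cls4; split_ifs <;> simp_all

theorem c4_1 (x : V) : cls4 u v side x = 1 ↔ x ≠ u ∧ x ≠ v ∧ ¬ side x := by
  unfold cls4; split_ifs <;> simp_all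

theorem c4_2 (x : V) : cls4 u v side x = 2 ↔ x = u := by
  unfold cls4; split_ifs <;> simp_all

theorem c4_3 (huv : u ≠ v) (x : V) : cls4 u v side x = 3 ↔ x = v := by
  unfold cls4; split_ifs <;> simp_all

variable (S T : Finset V)

theorem c6_0 (x : V) : cls6 u v side S T x = 0 ↔ x ≠ u ∧ x ≠ v ∧ side x ∧ x ∈ S := by
  unfold cls6; split_ifs <;> simp_all

theorem c6_1 (x : V) : cls6 u v side S T x = 1 ↔ x ≠ u ∧ x ≠ v ∧ side x ∧ x ∉ S := by
  unfold cls6; split_ifs <;> simp_all

theorem c6_2 (x : V) : cls6 u v side S T x = 2 ↔ x ≠ u ∧ x ≠ v ∧ ¬ side x ∧ x ∈ T := by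
  unfold cls6; split_ifs <;> simp_all

theorem c6_3 (x : V) : cls6 u v side S T x = 3 ↔ x ≠ u ∧ x ≠ v ∧ ¬ side x ∧ x ∉ T := by
  unfold cls6; split_ifs <;> simp_all

theorem c6_4 (x : V) : cls6 u v side S T x = 4 ↔ x = u := by
  unfold cls6; split_ifs <;> simp_all

theorem c6_5 (huv : u ≠ v) (x : V) : cls6 u v side S T x = 5 ↔ x = v := by
  unfold cls6; split_ifs <;> simp_all

end c4

theorem wt_pos (ends : E → Sym2 V) (e : E) (x y : V) (h : ends e = s(x, y)) :
    wt ends x y ≠ 0 := by
  classical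
  unfold wt
  rw [← Nat.pos_iff_ne_zero, Finset.card_pos]
  exact ⟨e, by simp [h]⟩

theorem nn_pos {n : ℕ} (ends : E → Sym2 V) (cls : V → Fin n) (e : E) (x y : V)
    (h : ends e = s(x, y)) (i j : Fin n) (hx : cls x = i) (hy : cls y = j) :
    nn ends cls (i, j) ≠ 0 := by
  classical
  intro h0
  unfold nn at h0
  rw [Finset.sum_eq_zero_iff] at h0
  exact wt_pos ends e x y h (h0 (x, y) (by simp [hx, hy]))

theorem wt_zero (ends : E → Sym2 V) (x y : V) (h : ∀ e, ends e ≠ s(x, y)) :
    wt ends x y = 0 := by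
  classical
  unfold wt
  rw [Finset.card_eq_zero, Finset.filter_eq_empty_iff]
  intro e _
  exact h e

open Classical in
/-- The four-class equations. -/
theorem eqs4 {r : ℕ} (ends : E → Sym2 V) (hl : ∀ e, ¬ (ends e).IsDiag)
    (hr : ∀ v, (univ.filter fun e => v ∈ ends e).card = r)
    (u v : V) (huv : u ≠ v) (side : V → Prop)
    (hs : ∀ e x y, ends e = s(x, y) → x ≠ u → x ≠ v → y ≠ u → y ≠ v → (side x ↔ ¬ side y)) :
    (nn ends (cls4 u v side) (0, 1) + nn ends (cls4 u v side) (0, 2)
        + nn ends (cls4 u v side) (0, 3)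
      = r * (univ.filter fun x => x ≠ u ∧ x ≠ v ∧ side x).card) ∧
    (nn ends (cls4 u v side) (0, 1) + nn ends (cls4 u v side) (1, 2)
        + nn ends (cls4 u v side) (1, 3)
      = r * (univ.filter fun x => x ≠ u ∧ x ≠ v ∧ ¬ side x).card) ∧
    (nn ends (cls4 u v side) (0, 2) + nn ends (cls4 u v side) (1, 2)
        + nn ends (cls4 u v side) (2, 3) = r) ∧
    (nn ends (cls4 u v side) (0, 3) + nn ends (cls4 u v side) (1, 3)
        + nn ends (cls4 u v side) (2, 3) = r) := by
  have z00 : nn ends (cls4 u v side) (0, 0) = 0 := nn_zero _ _ _ _ fun x y hx hy => by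
    rw [c4_0] at hx hy
    refine wt_zero _ _ _ fun e he => ?_
    have := hs e x y he hx.1 hx.2.1 hy.1 hy.2.1
    tauto
  have z11 : nn ends (cls4 u v side) (1, 1) = 0 := nn_zero _ _ _ _ fun x y hx hy => by
    rw [c4_1] at hx hy
    refine wt_zero _ _ _ fun e he => ?_
    have := hs e x y he hx.1 hx.2.1 hy.1 hy.2.1
    tauto
  have z22 : nn ends (cls4 u v side) (2, 2) = 0 := nn_zero _ _ _ _ fun x y hx hy => by
    rw [c4_2] at hx hy
    rw [hx, hy]
    exact wt_self ends hl u
  have z33 : nn ends (cls4 u v side) (3, 3) = 0 := nn_zero _ _ _ _ fun x y hx hy => by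
    rw [c4_3 _ _ _ huv] at hx hy
    rw [hx, hy]
    exact wt_self ends hl v
  have s0 := sum_nn ends hl hr (cls4 u v side) 0
  have s1 := sum_nn ends hl hr (cls4 u v side) 1
  have s2 := sum_nn ends hl hr (cls4 u v side) 2
  have s3 := sum_nn ends hl hr (cls4 u v side) 3
  rw [Fin.sum_univ_four] at s0 s1 s2 s3
  have c0 : (univ.filter fun x => cls4 u v side x = 0)
      = univ.filter fun x => x ≠ u ∧ x ≠ v ∧ side x := by
    ext x; simp only [mem_filter, mem_univ, true_and, c4_0]
  have c1 : (univ.filter fun x => cls4 u v side x = 1)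
      = univ.filter fun x => x ≠ u ∧ x ≠ v ∧ ¬ side x := by
    ext x; simp only [mem_filter, mem_univ, true_and, c4_1]
  have c2 : (univ.filter fun x => cls4 u v side x = 2) = {u} := by
    ext x; simp only [mem_filter, mem_univ, true_and, c4_2, mem_singleton]
  have c3 : (univ.filter fun x => cls4 u v side x = 3) = {v} := by
    ext x; simp only [mem_filter, mem_univ, true_and, c4_3 _ _ _ huv, mem_singleton]
  rw [c0] at s0
  rw [c1] at s1
  rw [c2, Finset.card_singleton] at s2
  rw [c3, Finset.card_singleton] at s3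
  rw [nn_comm ends (cls4 u v side) 1 0] at s1
  rw [nn_comm ends (cls4 u v side) 2 0, nn_comm ends (cls4 u v side) 2 1] at s2
  rw [nn_comm ends (cls4 u v side) 3 0, nn_comm ends (cls4 u v side) 3 1,
    nn_comm ends (cls4 u v side) 3 2] at s3
  refine ⟨by omega, by omega, by omega, by omega⟩

open Classical in
theorem card_two {u v : V} (huv : u ≠ v) (side : V → Prop) :
    (univ.filter fun x => x ≠ u ∧ x ≠ v ∧ side x).card
      + (univ.filter fun x => x ≠ u ∧ x ≠ v ∧ ¬ side x).card + 2 = Fintype.card V := by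
  have h1 : ((univ : Finset V).erase u).erase v = (univ.filter fun x => x ≠ u ∧ x ≠ v ∧ side x)
      ∪ (univ.filter fun x => x ≠ u ∧ x ≠ v ∧ ¬ side x) := by
    ext x
    simp only [mem_erase, mem_univ, and_true, mem_union, mem_filter, true_and]
    tauto
  have h2 := congrArg Finset.card h1
  rw [Finset.card_union_of_disjoint, Finset.card_erase_of_mem, Finset.card_erase_of_mem
    (mem_univ u), Finset.card_univ] at h2
  · have h3 : 2 ≤ Fintype.card V := by
      rw [← Finset.card_univ, ← Finset.card_pair huv]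
      exact Finset.card_le_card (subset_univ _)
    omega
  · simp [huv.symm]
  · rw [Finset.disjoint_left]
    intro x hx hx'
    simp only [mem_filter, mem_univ, true_and] at hx hx'
    exact hx'.2.2 hx.2.2

open Classical in
theorem unb {r : ℕ} (ends : E → Sym2 V) (hl : ∀ e, ¬ (ends e).IsDiag)
    (hr : ∀ v, (univ.filter fun e => v ∈ ends e).card = r) (hr0 : 0 < r)
    (hV : Even (Fintype.card V))
    (u v : V) (huv : u ≠ v) (side : V → Prop)
    (hs : ∀ e x y, ends e = s(x, y) → x ≠ u → x ≠ v → y ≠ u → y ≠ v → (side x ↔ ¬ side y))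
    (hlt : (univ.filter fun x => x ≠ u ∧ x ≠ v ∧ ¬ side x).card
      < (univ.filter fun x => x ≠ u ∧ x ≠ v ∧ side x).card) :
    ∃ c : E → Fin r, Proper ends c := by
  obtain ⟨e1, e2, e3, e4⟩ := eqs4 ends hl hr u v huv side hs
  have e5 := card_two huv side
  obtain ⟨m, hm⟩ := hV
  set n0 := (univ.filter fun x => x ≠ u ∧ x ≠ v ∧ side x).card
  set n1 := (univ.filter fun x => x ≠ u ∧ x ≠ v ∧ ¬ side x).card
  obtain ⟨k, hk⟩ : ∃ k, n0 = n1 + 2 + k := ⟨n0 - n1 - 2, by omega⟩
  rw [hk, mul_add, mul_add] at e1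
  have h12 : nn ends (cls4 u v side) (1, 2) = 0 := by omega
  have h13 : nn ends (cls4 u v side) (1, 3) = 0 := by omega
  have h23 : nn ends (cls4 u v side) (2, 3) = 0 := by omega
  refine konigSym ends (fun x => cls4 u v side x = 0) r ?_ hr
  intro e
  obtain ⟨x, y, hxy⟩ : ∃ x y, ends e = s(x, y) := by
    induction h : ends e with
    | _ x y => exact ⟨x, y, rfl⟩
  have hx0 : cls4 u v side x = 0 → cls4 u v side y ≠ 0 := by
    intro h1 h2
    rw [c4_0] at h1 h2
    have := hs e x y hxy h1.1 h1.2.1 h2.1 h2.2.1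
    tauto
  by_cases h1 : cls4 u v side x = 0
  · exact ⟨x, y, h1, hx0 h1, hxy⟩
  · by_cases h2 : cls4 u v side y = 0
    · exact ⟨y, x, h2, h1, hxy.trans Sym2.eq_swap⟩
    · exfalso
      have hyx : ends e = s(y, x) := hxy.trans Sym2.eq_swap
      have hne : x ≠ y := by
        rintro rfl
        exact hl e (by rw [hxy]; rfl)
      have hc : ∀ z : V, cls4 u v side z ≠ 0 → cls4 u v side z = 1 ∨ cls4 u v side z = 2 ∨
          cls4 u v side z = 3 := by
        intro z hz
        have : ∀ i : Fin 4, i ≠ 0 → i = 1 ∨ i = 2 ∨ i = 3 := by decide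
        exact this _ hz
      rcases hc x h1 with hx | hx | hx <;> rcases hc y h2 with hy | hy | hy
      · rw [c4_1] at hx hy
        have := hs e x y hxy hx.1 hx.2.1 hy.1 hy.2.1
        tauto
      · exact nn_pos ends _ e x y hxy 1 2 hx hy h12
      · exact nn_pos ends _ e x y hxy 1 3 hx hy h13
      · exact nn_pos ends _ e y x hyx 1 2 hy hx h12
      · rw [c4_2] at hx hy
        exact hne (hx.trans hy.symm)
      · exact nn_pos ends _ e x y hxy 2 3 hx hy h23
      · exact nn_pos ends _ e y x hyx 1 3 hy hx h13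
      · exact nn_pos ends _ e y x hyx 2 3 hy hx h23
      · rw [c4_3 _ _ _ huv] at hx hy
        exact hne (hx.trans hy.symm)

end Pool.Agent.Helper51.RG
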