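import Mathlib
import Pool.Agent.Helper51.RG.OddPair

set_option autoImplicit false

/-!
The balanced case.
-/

namespace Pool.Agent.Helper51.RG

open Finset

theorem ar1 (r b s t n02 n03 n21 us us' ut ut' uv vs vs' vt vt' : ℕ)
    (h1 : n02 + n03 + us + vs = r * s) (h2 : n02 + n21 + ut + vt = r * t)
    (h3 : us + us' + ut + ut' + uv = r)
    (h5 : ut + ut' = b) (h6 : vs + vs' = b) (h7 : us + us' = vt + vt') :
    b * s ≤ b * t + (n03 + vs) := by
  rcases le_or_gt s t with h | h
  · exact (Nat.mul_le_mul_left b h).trans (Nat.le_add_right _ _)
  · obtain ⟨k, rfl⟩ := Nat.exists_eq_add_of_lt h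
    have hk : b * k ≤ r * k := Nat.mul_le_mul_right k (by omega)
    have e1 : r * (t + k + 1) = r * t + r * k + r := by ring
    have e2 : b * (t + k + 1) = b * t + b * k + b := by ring
    omega

theorem ar2 (r b s t n02 n03 n21 us us' ut ut' uv vs vs' vt vt' : ℕ)
    (h1 : n02 + n03 + us + vs = r * s) (h2 : n02 + n21 + ut + vt = r * t)
    (h3 : us + us' + ut + ut' + uv = r)
    (h5 : ut + ut' = b) (h6 : vs + vs' = b) (h7 : us + us' = vt + vt') :
    b * s ≤ b * (t + 1) + n03 := by
  rcases le_or_gt s (t + 1) with h | h
  · exact (Nat.mul_le_mul_left b h).trans (Nat.le_add_right _ _)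
  · obtain ⟨k, rfl⟩ := Nat.exists_eq_add_of_lt h
    have hk : b * k ≤ r * k := Nat.mul_le_mul_right k (by omega)
    have e1 : r * (t + 1 + k + 1) = r * t + r * k + r + r := by ring
    have e2 : b * (t + 1 + k + 1) = b * t + b * k + b + b := by ring
    have e3 : b * (t + 1) = b * t + b := by ring
    omega

theorem ar3 (r b s t n02 n03 n21 us us' ut ut' uv vs vs' vt vt' : ℕ)
    (h1 : n02 + n03 + us + vs = r * s) (h2 : n02 + n21 + ut + vt = r * t)
    (h3 : us + us' + ut + ut' + uv = r)
    (h5 : ut + ut' = b) (h6 : vs + vs' = b) (h7 : us + us' = vt + vt') :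
    b * (s + 1) ≤ b * (t + 1) + (n03 + ut') := by
  rcases le_or_gt s t with h | h
  · exact (Nat.mul_le_mul_left b (by omega)).trans (Nat.le_add_right _ _)
  · obtain ⟨k, rfl⟩ := Nat.exists_eq_add_of_lt h
    have hk : b * k ≤ r * k := Nat.mul_le_mul_right k (by omega)
    have e1 : r * (t + k + 1) = r * t + r * k + r := by ring
    have e2 : b * (t + k + 1 + 1) = b * t + b * k + b + b := by ring
    have e3 : b * (t + 1) = b * t + b := by ring
    omega

theorem ar4 (r b s t n02 n03 n21 us us' ut ut' uv vs vs' vt vt' : ℕ)
    (h1 : n02 + n03 + us + vs = r * s) (h2 : n02 + n21 + ut + vt = r * t)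
    (h3 : us + us' + ut + ut' + uv = r)
    (h5 : ut + ut' = b) (h6 : vs + vs' = b) (h7 : us + us' = vt + vt')
    (hcut : s = t → r ≤ n03 + vs + us' + ut' + uv + n21 + vt) :
    b * (s + 1) ≤ b * t + (n03 + vs + ut') := by
  rcases lt_trichotomy s t with h | h | h
  · exact (Nat.mul_le_mul_left b (by omega)).trans (Nat.le_add_right _ _)
  · have := hcut h
    subst h
    have e3 : b * (s + 1) = b * s + b := by ring
    omega
  · obtain ⟨k, rfl⟩ := Nat.exists_eq_add_of_lt h
    have hk : b * k ≤ r * k := Nat.mul_le_mul_right k (by omega)
    have e1 : r * (t + k + 1) = r * t + r * k + r := by ring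
    have e2 : b * (t + k + 1 + 1) = b * t + b * k + b + b := by ring
    omega

variable {V E : Type} [Fintype V] [Fintype E]

open Classical in
theorem bal {r : ℕ} (ends : E → Sym2 V) (hl : ∀ e, ¬ (ends e).IsDiag)
    (hr : ∀ v, (univ.filter fun e => v ∈ ends e).card = r)
    (hcut : ∀ X : Finset V, Odd X.card →
      r ≤ (univ.filter fun e => ∃ x ∈ X, ∃ y ∉ X, ends e = s(x, y)).card)
    (u v : V) (huv : u ≠ v) (side : V → Prop)
    (hs : ∀ e x y, ends e = s(x, y) → x ≠ u → x ≠ v → y ≠ u → y ≠ v → (side x ↔ ¬ side y))
    (heq : (univ.filter fun x => x ≠ u ∧ x ≠ v ∧ side x).card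
      = (univ.filter fun x => x ≠ u ∧ x ≠ v ∧ ¬ side x).card) :
    ∃ c : E → Fin r, Proper ends c := by
  obtain ⟨g1, g2, g3, g4⟩ := eqs4 ends hl hr u v huv side hs
  rw [heq] at g1
  set b := nn ends (cls4 u v side) (1, 2) with hb
  have hb' : nn ends (cls4 u v side) (0, 3) = b := by omega
  have hbr : b ≤ r := by omega
  -- the two bad sets
  set BU : Finset E := univ.filter fun e => ∃ x y, (cls4 u v side x, cls4 u v side y) ∈
    ({(1, 2)} : Finset (Fin 4 × Fin 4)) ∧ ends e = s(x, y) with hBU
  set BV : Finset E := univ.filter fun e => ∃ x y, (cls4 u v side x, cls4 u v side y) ∈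
    ({(0, 3)} : Finset (Fin 4 × Fin 4)) ∧ ends e = s(x, y) with hBV
  have cBU : BU.card = b := by
    rw [hBU, card_pairs ends (cls4 u v side) {(1, 2)} (by decide), Finset.sum_singleton]
  have cBV : BV.card = b := by
    rw [hBV, card_pairs ends (cls4 u v side) {(0, 3)} (by decide), Finset.sum_singleton, hb']
  -- the bipartite graph
  set sideH : V → Prop := fun x => x = u ∨ (x ≠ v ∧ side x) with hsH
  set H : Finset E := univ.filter fun e => ∃ x y, sideH x ∧ ¬ sideH y ∧ ¬ (x = u ∧ y = v) ∧
    ends e = s(x, y) with hH
  obtain ⟨X, hXH, hX⟩ : ∃ X ⊆ H, ∀ v, (X.filter fun e => v ∈ ends e).card = b := by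
    refine bfactorSym ends sideH H b ?_ ?_ ?_
    · intro e he
      rw [hH, mem_filter] at he
      obtain ⟨-, x, y, h1, h2, -, h4⟩ := he
      exact ⟨x, y, h1, h2, h4⟩
    · rw [Nat.card_eq_fintype_card, Nat.card_eq_fintype_card, Fintype.card_subtype,
        Fintype.card_subtype]
      have h1 : (univ.filter fun x => sideH x)
          = insert u (univ.filter fun x => x ≠ u ∧ x ≠ v ∧ side x) := by
        ext x
        simp only [hsH, mem_filter, mem_univ, true_and, mem_insert]
        tauto
      have h2 : (univ.filter fun x => ¬ sideH x)
          = insert v (univ.filter fun x => x ≠ u ∧ x ≠ v ∧ ¬ side x) := by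
        ext x
        simp only [hsH, mem_filter, mem_univ, true_and, mem_insert]
        by_cases hxv : x = v
        · subst hxv
          simp [huv.symm]
        · tauto
      rw [h1, h2, Finset.card_insert_of_notMem (by simp), Finset.card_insert_of_notMem (by simp),
        heq]
    · intro S T hS hT
      set K : Finset (Fin 6 × Fin 6) := {(0, 3)} ∪ (if v ∈ T then ∅ else {(0, 5)})
        ∪ (if u ∈ S then {(4, 3)} else ∅) with hK
      have hKanti : ∀ i j, (i, j) ∈ K → (j, i) ∉ K := by
        rw [hK]
        split_ifs <;> decide
      refine ⟨univ.filter fun e => ∃ x y, (cls6 u v side S T x, cls6 u v side S T y) ∈ K ∧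
        ends e = s(x, y), ?_, ?_, ?_⟩
      · intro e he
        rw [mem_filter] at he
        obtain ⟨-, x, y, hxy, he⟩ := he
        rw [hH, mem_filter]
        refine ⟨mem_univ _, x, y, ?_⟩
        have h3 : ∀ x y : V, (cls6 u v side S T x, cls6 u v side S T y) ∈ K →
            ((cls6 u v side S T x = 0 ∧ cls6 u v side S T y = 3) ∨
            (v ∉ T ∧ cls6 u v side S T x = 0 ∧ cls6 u v side S T y = 5) ∨
            (u ∈ S ∧ cls6 u v side S T x = 4 ∧ cls6 u v side S T y = 3)) := by
          intro x y h
          rw [hK] at h
          split_ifs at h <;> simp_all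
        rcases h3 x y hxy with ⟨h4, h5⟩ | ⟨h3, h4, h5⟩ | ⟨h3, h4, h5⟩
        · rw [c6_0] at h4
          rw [c6_3] at h5
          refine ⟨Or.inr ⟨h4.2.1, h4.2.2.1⟩, ?_, ?_, he⟩
          · simp only [hsH]; tauto
          · tauto
        · rw [c6_0] at h4
          rw [c6_5 _ _ _ _ _ huv] at h5
          refine ⟨Or.inr ⟨h4.2.1, h4.2.2.1⟩, ?_, ?_, he⟩
          · simp only [hsH, h5]
            rintro (h | h)
            · exact huv h.symm
            · exact h.1 rfl
          · tauto
        · rw [c6_4] at h4
          rw [c6_3] at h5
          refine ⟨Or.inl h4, ?_, ?_, he⟩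
          · simp only [hsH]; tauto
          · tauto
      · intro e he
        rw [mem_filter] at he
        obtain ⟨-, x, y, hxy, he⟩ := he
        have h3 : ∀ x y : V, (cls6 u v side S T x, cls6 u v side S T y) ∈ K →
            ((cls6 u v side S T x = 0 ∧ cls6 u v side S T y = 3) ∨
            (v ∉ T ∧ cls6 u v side S T x = 0 ∧ cls6 u v side S T y = 5) ∨
            (u ∈ S ∧ cls6 u v side S T x = 4 ∧ cls6 u v side S T y = 3)) := by
          intro x y h
          rw [hK] at h
          split_ifs at h <;> simp_all
        rcases h3 x y hxy with ⟨h4, h5⟩ | ⟨h3, h4, h5⟩ | ⟨h3, h4, h5⟩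
        · rw [c6_0] at h4
          rw [c6_3] at h5
          refine ⟨x, h4.2.2.2, y, h5.2.2.2, ?_, he⟩
          simp only [hsH]; tauto
        · rw [c6_0] at h4
          rw [c6_5 _ _ _ _ _ huv] at h5
          refine ⟨x, h4.2.2.2, y, h5 ▸ h3, ?_, he⟩
          simp only [hsH, h5]
          rintro (h | h)
          · exact huv h.symm
          · exact h.1 rfl
        · rw [c6_4] at h4
          rw [c6_3] at h5
          refine ⟨x, h4 ▸ h3, y, h5.2.2.2, ?_, he⟩
          simp only [hsH]; tauto
      · rw [card_pairs ends (cls6 u v side S T) K hKanti]
        -- six class equations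
        have zz : ∀ i j : Fin 6, (i = 0 ∨ i = 1) → (j = 0 ∨ j = 1) →
            nn ends (cls6 u v side S T) (i, j) = 0 := by
          intro i j hi hj
          refine nn_zero _ _ _ _ fun x y hx hy => wt_zero _ _ _ fun e he => ?_
          have hx' : x ≠ u ∧ x ≠ v ∧ side x := by
            rcases hi with rfl | rfl
            · rw [c6_0] at hx; tauto
            · rw [c6_1] at hx; tauto
          have hy' : y ≠ u ∧ y ≠ v ∧ side y := by
            rcases hj with rfl | rfl
            · rw [c6_0] at hy; tauto
            · rw [c6_1] at hy; tauto
          have := hs e x y he hx'.1 hx'.2.1 hy'.1 hy'.2.1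
          tauto
        have zz' : ∀ i j : Fin 6, (i = 2 ∨ i = 3) → (j = 2 ∨ j = 3) →
            nn ends (cls6 u v side S T) (i, j) = 0 := by
          intro i j hi hj
          refine nn_zero _ _ _ _ fun x y hx hy => wt_zero _ _ _ fun e he => ?_
          have hx' : x ≠ u ∧ x ≠ v ∧ ¬ side x := by
            rcases hi with rfl | rfl
            · rw [c6_2] at hx; tauto
            · rw [c6_3] at hx; tauto
          have hy' : y ≠ u ∧ y ≠ v ∧ ¬ side y := by
            rcases hj with rfl | rfl
            · rw [c6_2] at hy; tauto
            · rw [c6_3] at hy; tauto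
          have := hs e x y he hx'.1 hx'.2.1 hy'.1 hy'.2.1
          tauto
        have z44 : nn ends (cls6 u v side S T) (4, 4) = 0 := nn_zero _ _ _ _ fun x y hx hy => by
          rw [c6_4] at hx hy
          rw [hx, hy]
          exact wt_self ends hl u
        have z55 : nn ends (cls6 u v side S T) (5, 5) = 0 := nn_zero _ _ _ _ fun x y hx hy => by
          rw [c6_5 _ _ _ _ _ huv] at hx hy
          rw [hx, hy]
          exact wt_self ends hl v
        have s0 := sum_nn ends hl hr (cls6 u v side S T) 0
        have s2 := sum_nn ends hl hr (cls6 u v side S T) 2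
        have s4 := sum_nn ends hl hr (cls6 u v side S T) 4
        have s5 := sum_nn ends hl hr (cls6 u v side S T) 5
        rw [Fin.sum_univ_six] at s0 s2 s4 s5
        rw [zz 0 0 (by simp) (by simp), zz 0 1 (by simp) (by simp)] at s0
        rw [zz' 2 2 (by simp) (by simp), zz' 2 3 (by simp) (by simp),
          nn_comm ends (cls6 u v side S T) 2 0] at s2
        rw [z44, nn_comm ends (cls6 u v side S T) 4 0, nn_comm ends (cls6 u v side S T) 4 1,
          nn_comm ends (cls6 u v side S T) 4 2] at s4
        rw [z55, nn_comm ends (cls6 u v side S T) 5 0, nn_comm ends (cls6 u v side S T) 5 1,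
          nn_comm ends (cls6 u v side S T) 5 2, nn_comm ends (cls6 u v side S T) 5 3,
          nn_comm ends (cls6 u v side S T) 5 4] at s5
        have c4 : (univ.filter fun x => cls6 u v side S T x = 4) = {u} := by
          ext x; simp only [mem_filter, mem_univ, true_and, c6_4, mem_singleton]
        have c5 : (univ.filter fun x => cls6 u v side S T x = 5) = {v} := by
          ext x; simp only [mem_filter, mem_univ, true_and, c6_5 _ _ _ _ _ huv, mem_singleton]
        rw [c4, Finset.card_singleton] at s4
        rw [c5, Finset.card_singleton] at s5
        -- relation with b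
        have hbu : nn ends (cls6 u v side S T) (2, 4) + nn ends (cls6 u v side S T) (4, 3) = b := by
          rw [nn_comm ends (cls6 u v side S T) 4 3]
          have h1 := card_pairs ends (cls6 u v side S T) {(2, 4), (3, 4)} (by decide)
          rw [Finset.sum_pair (by decide)] at h1
          rw [← h1, ← cBU, hBU]
          congr 1
          ext e
          simp only [mem_filter, mem_univ, true_and]
          refine exists_congr fun x => exists_congr fun y => and_congr_left fun _ => ?_
          simp only [mem_insert, mem_singleton, Prod.mk.injEq, c6_2, c6_3, c6_4, c4_1, c4_2]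
          tauto
        have hbv : nn ends (cls6 u v side S T) (0, 5) + nn ends (cls6 u v side S T) (1, 5) = b := by
          have h1 := card_pairs ends (cls6 u v side S T) {(0, 5), (1, 5)} (by decide)
          rw [Finset.sum_pair (by decide)] at h1
          rw [← h1, ← cBV, hBV]
          congr 1
          ext e
          simp only [mem_filter, mem_univ, true_and]
          refine exists_congr fun x => exists_congr fun y => and_congr_left fun _ => ?_
          simp only [mem_insert, mem_singleton, Prod.mk.injEq, c6_0, c6_1, c6_5 _ _ _ _ _ huv,
            c4_0, c4_3 _ _ _ huv]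
          tauto
        have hsub0 : S = if u ∈ S then insert u (univ.filter fun x => cls6 u v side S T x = 0)
            else (univ.filter fun x => cls6 u v side S T x = 0) := by
          ext x
          have hx := hS x
          simp only [hsH] at hx
          split_ifs with hu
          · simp only [mem_insert, mem_filter, mem_univ, true_and, c6_0]
            constructor
            · intro h
              have := hx h
              tauto
            · rintro (h | h)
              · rw [h]; exact hu
              · exact h.2.2.2
          · simp only [mem_filter, mem_univ, true_and, c6_0]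
            constructor
            · intro h
              have h1 := hx h
              have h2 : x ≠ u := fun h' => hu (h' ▸ h)
              tauto
            · intro h
              exact h.2.2.2
        have hsub2 : T = if v ∈ T then insert v (univ.filter fun x => cls6 u v side S T x = 2)
            else (univ.filter fun x => cls6 u v side S T x = 2) := by
          ext x
          have hx := hT x
          simp only [hsH] at hx
          split_ifs with hu
          · simp only [mem_insert, mem_filter, mem_univ, true_and, c6_2]
            constructor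
            · intro h
              have := hx h
              tauto
            · rintro (h | h)
              · rw [h]; exact hu
              · exact h.2.2.2
          · simp only [mem_filter, mem_univ, true_and, c6_2]
            constructor
            · intro h
              have h1 := hx h
              have h2 : x ≠ v := fun h' => hu (h' ▸ h)
              tauto
            · intro h
              exact h.2.2.2
        by_cases hu : u ∈ S <;> by_cases hv : v ∈ T
        · rw [if_pos hu] at hsub0
          rw [if_pos hv] at hsub2
          have cS : S.card = (univ.filter fun x => cls6 u v side S T x = 0).card + 1 := by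
            conv_lhs => rw [hsub0]
            rw [Finset.card_insert_of_notMem (by simp [c6_0])]
          have cT : T.card = (univ.filter fun x => cls6 u v side S T x = 2).card + 1 := by
            conv_lhs => rw [hsub2]
            rw [Finset.card_insert_of_notMem (by simp [c6_2])]
          have hKe : K = {(0, 3), (4, 3)} := by
            rw [hK, if_pos hu, if_pos hv]; rfl
          rw [cS, cT, hKe, Finset.sum_pair (by decide)]
          refine ar3 r b _ _ (nn ends (cls6 u v side S T) (0, 2))
            (nn ends (cls6 u v side S T) (0, 3)) (nn ends (cls6 u v side S T) (2, 1))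
            (nn ends (cls6 u v side S T) (0, 4)) (nn ends (cls6 u v side S T) (1, 4))
            (nn ends (cls6 u v side S T) (2, 4)) (nn ends (cls6 u v side S T) (4, 3))
            (nn ends (cls6 u v side S T) (4, 5)) (nn ends (cls6 u v side S T) (0, 5))
            (nn ends (cls6 u v side S T) (1, 5)) (nn ends (cls6 u v side S T) (2, 5))
            (nn ends (cls6 u v side S T) (3, 5)) ?_ ?_ ?_ ?_ ?_ ?_ <;> omega
        · rw [if_pos hu] at hsub0
          rw [if_neg hv] at hsub2
          have cS : S.card = (univ.filter fun x => cls6 u v side S T x = 0).card + 1 := by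
            conv_lhs => rw [hsub0]
            rw [Finset.card_insert_of_notMem (by simp [c6_0])]
          have cT : T.card = (univ.filter fun x => cls6 u v side S T x = 2).card := by
            conv_lhs => rw [hsub2]
          have hKe : K = {(0, 3), (0, 5), (4, 3)} := by
            rw [hK, if_pos hu, if_neg hv]; rfl
          have hsum : ∑ k ∈ K, nn ends (cls6 u v side S T) k
              = nn ends (cls6 u v side S T) (0, 3) + nn ends (cls6 u v side S T) (0, 5)
                + nn ends (cls6 u v side S T) (4, 3) := by
            rw [hKe, Finset.sum_insert (by decide), Finset.sum_pair (by decide)]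
            ring
          rw [cS, cT, hsum]
          refine ar4 r b _ _ (nn ends (cls6 u v side S T) (0, 2))
            (nn ends (cls6 u v side S T) (0, 3)) (nn ends (cls6 u v side S T) (2, 1))
            (nn ends (cls6 u v side S T) (0, 4)) (nn ends (cls6 u v side S T) (1, 4))
            (nn ends (cls6 u v side S T) (2, 4)) (nn ends (cls6 u v side S T) (4, 3))
            (nn ends (cls6 u v side S T) (4, 5)) (nn ends (cls6 u v side S T) (0, 5))
            (nn ends (cls6 u v side S T) (1, 5)) (nn ends (cls6 u v side S T) (2, 5))
            (nn ends (cls6 u v side S T) (3, 5)) ?_ ?_ ?_ ?_ ?_ ?_ ?_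
          · omega
          · omega
          · omega
          · omega
          · omega
          · omega
          · intro hst
            have hodd : Odd (S ∪ T).card := by
              rw [Finset.card_union_of_disjoint, cS, cT, hst]
              · exact ⟨(univ.filter fun x => cls6 u v side S T x = 2).card, by ring⟩
              · rw [Finset.disjoint_left]
                intro x hx hx'
                exact hT x hx' (hS x hx)
            have h1 := hcut (S ∪ T) hodd
            have h2 : (univ.filter fun e => ∃ x ∈ S ∪ T, ∃ y ∉ S ∪ T, ends e = s(x, y))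
                ⊆ univ.filter fun e => ∃ x y, (cls6 u v side S T x, cls6 u v side S T y) ∈
                  ({(0, 3), (0, 5), (1, 4), (4, 3), (4, 5), (2, 1), (2, 5)} :
                    Finset (Fin 6 × Fin 6)) ∧ ends e = s(x, y) := by
              intro e he
              rw [mem_filter] at he ⊢
              refine ⟨mem_univ _, ?_⟩
              obtain ⟨-, x, hx, y, hy, he⟩ := he
              have he' : ends e = s(y, x) := he.trans Sym2.eq_swap
              rw [mem_union, not_or] at hy
              rw [mem_union] at hx
              have cx : cls6 u v side S T x = 0 ∨ cls6 u v side S T x = 2 ∨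
                  cls6 u v side S T x = 4 := by
                rcases hx with h | h
                · have := hS x h
                  simp only [hsH] at this
                  rw [c6_0, c6_4]
                  tauto
                · have h1 := hT x h
                  simp only [hsH] at h1
                  have h2 : x ≠ v := fun h' => hv (h' ▸ h)
                  rw [c6_2]
                  tauto
              have cy : cls6 u v side S T y = 1 ∨ cls6 u v side S T y = 3 ∨
                  cls6 u v side S T y = 5 := by
                have h1 : y ≠ u := fun h' => hy.1 (h' ▸ hu)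
                rw [c6_1, c6_3, c6_5 _ _ _ _ _ huv]
                tauto
              rcases cx with cx | cx | cx <;> rcases cy with cy | cy | cy
              · exact absurd (zz 0 1 (by simp) (by simp)) (nn_pos ends _ e x y he 0 1 cx cy)
              · exact ⟨x, y, by rw [cx, cy]; decide, he⟩
              · exact ⟨x, y, by rw [cx, cy]; decide, he⟩
              · exact ⟨x, y, by rw [cx, cy]; decide, he⟩
              · exact absurd (zz' 2 3 (by simp) (by simp)) (nn_pos ends _ e x y he 2 3 cx cy)
              · exact ⟨x, y, by rw [cx, cy]; decide, he⟩
              · exact ⟨y, x, by rw [cx, cy]; decide, he'⟩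
              · exact ⟨x, y, by rw [cx, cy]; decide, he⟩
              · exact ⟨x, y, by rw [cx, cy]; decide, he⟩
            have h3 := Finset.card_le_card h2
            rw [card_pairs ends (cls6 u v side S T)
              {(0, 3), (0, 5), (1, 4), (4, 3), (4, 5), (2, 1), (2, 5)} (by decide),
              Finset.sum_insert (by decide), Finset.sum_insert (by decide),
              Finset.sum_insert (by decide), Finset.sum_insert (by decide),
              Finset.sum_insert (by decide), Finset.sum_pair (by decide)] at h3
            omega
        · rw [if_neg hu] at hsub0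
          rw [if_pos hv] at hsub2
          have cS : S.card = (univ.filter fun x => cls6 u v side S T x = 0).card := by
            conv_lhs => rw [hsub0]
          have cT : T.card = (univ.filter fun x => cls6 u v side S T x = 2).card + 1 := by
            conv_lhs => rw [hsub2]
            rw [Finset.card_insert_of_notMem (by simp [c6_2])]
          have hKe : K = {(0, 3)} := by
            rw [hK, if_neg hu, if_pos hv]; rfl
          rw [cS, cT, hKe, Finset.sum_singleton]
          refine ar2 r b _ _ (nn ends (cls6 u v side S T) (0, 2))
            (nn ends (cls6 u v side S T) (0, 3)) (nn ends (cls6 u v side S T) (2, 1))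
            (nn ends (cls6 u v side S T) (0, 4)) (nn ends (cls6 u v side S T) (1, 4))
            (nn ends (cls6 u v side S T) (2, 4)) (nn ends (cls6 u v side S T) (4, 3))
            (nn ends (cls6 u v side S T) (4, 5)) (nn ends (cls6 u v side S T) (0, 5))
            (nn ends (cls6 u v side S T) (1, 5)) (nn ends (cls6 u v side S T) (2, 5))
            (nn ends (cls6 u v side S T) (3, 5)) ?_ ?_ ?_ ?_ ?_ ?_ <;> omega
        · rw [if_neg hu] at hsub0
          rw [if_neg hv] at hsub2
          have cS : S.card = (univ.filter fun x => cls6 u v side S T x = 0).card := by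
            conv_lhs => rw [hsub0]
          have cT : T.card = (univ.filter fun x => cls6 u v side S T x = 2).card := by
            conv_lhs => rw [hsub2]
          have hKe : K = {(0, 3), (0, 5)} := by
            rw [hK, if_neg hu, if_neg hv]; rfl
          rw [cS, cT, hKe, Finset.sum_pair (by decide)]
          refine ar1 r b _ _ (nn ends (cls6 u v side S T) (0, 2))
            (nn ends (cls6 u v side S T) (0, 3)) (nn ends (cls6 u v side S T) (2, 1))
            (nn ends (cls6 u v side S T) (0, 4)) (nn ends (cls6 u v side S T) (1, 4))
            (nn ends (cls6 u v side S T) (2, 4)) (nn ends (cls6 u v side S T) (4, 3))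
            (nn ends (cls6 u v side S T) (4, 5)) (nn ends (cls6 u v side S T) (0, 5))
            (nn ends (cls6 u v side S T) (1, 5)) (nn ends (cls6 u v side S T) (2, 5))
            (nn ends (cls6 u v side S T) (3, 5)) ?_ ?_ ?_ ?_ ?_ ?_ <;> omega
  -- bad edges are in X
  have hBUX : BU ⊆ X := by
    have h1 : (X.filter fun e => u ∈ ends e) ⊆ BU := by
      intro e he
      rw [mem_filter] at he
      have h2 := hXH he.1
      rw [hH, mem_filter] at h2
      obtain ⟨-, x, y, h3, h4, h5, h6⟩ := h2
      have hu := he.2
      rw [h6, Sym2.mem_iff] at hu
      simp only [hsH] at h3 h4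
      rw [hBU, mem_filter]
      refine ⟨mem_univ _, y, x, ?_, h6.trans Sym2.eq_swap⟩
      simp only [mem_singleton, Prod.mk.injEq, c4_1, c4_2]
      rcases hu with hu | hu
      · subst hu
        have h7 : y ≠ v := fun h => h5 ⟨rfl, h⟩
        tauto
      · subst hu
        tauto
    have h2 := Finset.eq_of_subset_of_card_le h1 (by rw [cBU, hX u])
    rw [← h2]
    exact Finset.filter_subset _ _
  have hBVX : BV ⊆ X := by
    have h1 : (X.filter fun e => v ∈ ends e) ⊆ BV := by
      intro e he
      rw [mem_filter] at he
      have h2 := hXH he.1
      rw [hH, mem_filter] at h2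
      obtain ⟨-, x, y, h3, h4, h5, h6⟩ := h2
      have hu := he.2
      rw [h6, Sym2.mem_iff] at hu
      simp only [hsH] at h3 h4
      rw [hBV, mem_filter]
      refine ⟨mem_univ _, x, y, ?_, h6⟩
      simp only [mem_singleton, Prod.mk.injEq, c4_0, c4_3 _ _ _ huv]
      rcases hu with hu | hu
      · subst hu
        have h7 : v ≠ u := huv.symm
        tauto
      · subst hu
        have h7 : x ≠ u := fun h => h5 ⟨h, rfl⟩
        tauto
    have h2 := Finset.eq_of_subset_of_card_le h1 (by rw [cBV, hX v])
    rw [← h2]
    exact Finset.filter_subset _ _
  refine combine ends (fun e => e ∈ X) b (r - b) r (by omega) ?_ ?_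
  · refine konigSym (fun e : {e // e ∈ X} => ends e.1) sideH b ?_ ?_
    · rintro ⟨e, he⟩
      have h2 := hXH he
      rw [hH, mem_filter] at h2
      obtain ⟨-, x, y, h3, h4, h5, h6⟩ := h2
      exact ⟨x, y, h3, h4, h6⟩
    · intro w
      have h0 : (univ.filter fun e => e ∈ X ∧ w ∈ ends e).card = b := by
        rw [← hX w]
        congr 1
        ext e
        simp
      exact (card_sub (fun e => w ∈ ends e) (fun e => e ∈ X)).trans h0
  · refine konigSym (fun e : {e // ¬ e ∈ X} => ends e.1) (fun x => x = v ∨ (x ≠ u ∧ side x))
      (r - b) ?_ ?_
    · rintro ⟨e, he⟩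
      obtain ⟨x, y, hxy⟩ : ∃ x y, ends e = s(x, y) := by
        induction h : ends e with
        | _ x y => exact ⟨x, y, rfl⟩
      have hyx : ends e = s(y, x) := hxy.trans Sym2.eq_swap
      have hne : x ≠ y := by
        rintro rfl
        exact hl e (by rw [hxy]; rfl)
      have nBU : ∀ a, a ≠ u → a ≠ v → ¬ side a → ends e ≠ s(a, u) := by
        intro a h1 h2 h3 h4
        apply he
        apply hBUX
        rw [hBU, mem_filter]
        refine ⟨mem_univ _, a, u, ?_, h4⟩
        simp only [mem_singleton, Prod.mk.injEq, c4_1, c4_2]
        tauto
      have nBV : ∀ a, a ≠ u → a ≠ v → side a → ends e ≠ s(a, v) := by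
        intro a h1 h2 h3 h4
        apply he
        apply hBVX
        rw [hBV, mem_filter]
        refine ⟨mem_univ _, a, v, ?_, h4⟩
        simp only [mem_singleton, Prod.mk.injEq, c4_0, c4_3 _ _ _ huv]
        tauto
      have key : (x = v ∨ (x ≠ u ∧ side x)) ↔ ¬ (y = v ∨ (y ≠ u ∧ side y)) := by
        by_cases hxu : x = u
        · subst hxu
          have h1 := nBU y
          have h2 : y ≠ x := hne.symm
          constructor
          · rintro (h | h)
            · exact absurd h huv
            · exact absurd rfl h.1
          · intro h
            exfalso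
            rw [not_or] at h
            exact h1 h2 h.1 (fun hs => h.2 ⟨h2, hs⟩) hyx
        · by_cases hxv : x = v
          · subst hxv
            have h1 := nBV y
            have h2 : y ≠ x := hne.symm
            constructor
            · intro _
              rintro (h | h)
              · exact h2 h
              · exact h1 h.1 h2 h.2 hyx
            · intro _
              exact Or.inl rfl
          · by_cases hyu : y = u
            · subst hyu
              have h1 := nBU x
              constructor
              · intro _
                rintro (h | h)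
                · exact huv h
                · exact h.1 rfl
              · intro _
                right
                refine ⟨hxu, ?_⟩
                by_contra hs
                exact h1 hxu hxv hs hxy
            · by_cases hyv : y = v
              · subst hyv
                have h1 := nBV x
                constructor
                · rintro (h | h)
                  · exact absurd h hxv
                  · exact absurd hxy (h1 hxu hxv h.2)
                · intro h
                  exact absurd (Or.inl rfl) h
              · have := hs e x y hxy hxu hxv hyu hyv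
                tauto
      by_cases hx : x = v ∨ (x ≠ u ∧ side x)
      · exact ⟨x, y, hx, key.mp hx, hxy⟩
      · refine ⟨y, x, ?_, hx, hyx⟩
        by_contra h
        exact hx (key.mpr h)
    · intro w
      refine (card_sub (fun e => w ∈ ends e) (fun e => ¬ e ∈ X)).trans ?_
      have h1 := Finset.card_filter_add_card_filter_not (s := univ.filter fun e => w ∈ ends e)
        (fun e => e ∈ X)
      rw [Finset.filter_filter, Finset.filter_filter, hr w] at h1
      have h2 := hX w
      have h3 : (X.filter fun e => w ∈ ends e) = univ.filter fun e => w ∈ ends e ∧ e ∈ X := by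
        ext e
        simp [and_comm]
      have h4 : (univ.filter fun e => ¬ e ∈ X ∧ w ∈ ends e)
          = univ.filter fun e => w ∈ ends e ∧ ¬ e ∈ X := by
        ext e
        simp [and_comm]
      rw [h3] at h2
      rw [h4]
      omega

open Classical in
/-- `r`-graphs that become bipartite after removing two vertices are class 1. -/
theorem oddPair {r : ℕ} (ends : E → Sym2 V) (hl : ∀ e, ¬ (ends e).IsDiag)
    (hr : ∀ v, (univ.filter fun e => v ∈ ends e).card = r)
    (hcut : ∀ X : Finset V, Odd X.card →
      r ≤ (univ.filter fun e => ∃ x ∈ X, ∃ y ∉ X, ends e = s(x, y)).card)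
    (u v : V) (huv : u ≠ v) (side : V → Prop)
    (hs : ∀ e x y, ends e = s(x, y) → x ≠ u → x ≠ v → y ≠ u → y ≠ v → (side x ↔ ¬ side y)) :
    ∃ c : E → Fin r, Proper ends c := by
  rcases Nat.eq_zero_or_pos r with hr0 | hr0
  · have hE : ∀ e : E, False := by
      intro e
      obtain ⟨x, y, hxy⟩ : ∃ x y, ends e = s(x, y) := by
        induction h : ends e with
        | _ x y => exact ⟨x, y, rfl⟩
      have h1 := hr x
      rw [hr0, Finset.card_eq_zero, Finset.filter_eq_empty_iff] at h1
      exact h1 (mem_univ e) (by rw [hxy]; exact Sym2.mem_mk_left x y)
    exact ⟨fun e => (hE e).elim, fun e => (hE e).elim⟩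
  · have hV : Even (Fintype.card V) := by
      by_contra hodd
      rw [Nat.not_even_iff_odd, ← Finset.card_univ] at hodd
      have h1 := hcut univ hodd
      have h2 : (univ.filter fun e => ∃ x ∈ (univ : Finset V), ∃ y ∉ (univ : Finset V),
          ends e = s(x, y)) = ∅ := by
        rw [Finset.filter_eq_empty_iff]
        rintro e - ⟨x, -, y, hy, -⟩
        exact hy (mem_univ y)
      rw [h2, Finset.card_empty] at h1
      omega
    rcases lt_trichotomy (univ.filter fun x => x ≠ u ∧ x ≠ v ∧ ¬ side x).card
      (univ.filter fun x => x ≠ u ∧ x ≠ v ∧ side x).card with h | h | h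
    · exact unb ends hl hr hr0 hV u v huv side hs h
    · exact bal ends hl hr hcut u v huv side hs h.symm
    · refine unb ends hl hr hr0 hV u v huv (fun x => ¬ side x) ?_ ?_
      · intro e x y he h1 h2 h3 h4
        have := hs e x y he h1 h2 h3 h4
        tauto
      · simpa using h

end Pool.Agent.Helper51.RG
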