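import Mathlib
import Pool.Agent.Helper51.RG.Count
import Pool.Agent.Helper51.RG.OddPair

set_option autoImplicit false

/-!
Regular multigraphs of even order without two vertex-disjoint odd cycles are class 1.
-/

namespace Pool.Agent.Helper51.RG

open Finset

variable {V E : Type} [Fintype V] [Fintype E]

/-- The underlying simple graph. -/
def gr {V E : Type} (ends : E → Sym2 V) : SimpleGraph V :=
  SimpleGraph.fromRel (fun u w : V => ∃ e, ends e = s(u, w))

theorem gr_adj {V E : Type} (ends : E → Sym2 V) (hl : ∀ e, ¬ (ends e).IsDiag) (x y : V) :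
    (gr ends).Adj x y ↔ ∃ e, ends e = s(x, y) := by
  unfold gr
  rw [SimpleGraph.fromRel_adj]
  constructor
  · rintro ⟨-, ⟨e, he⟩ | ⟨e, he⟩⟩
    · exact ⟨e, he⟩
    · exact ⟨e, he.trans Sym2.eq_swap⟩
  · rintro ⟨e, he⟩
    refine ⟨?_, Or.inl ⟨e, he⟩⟩
    rintro rfl
    exact hl e (by rw [he]; rfl)

/-- No two disjoint odd closed walks. -/
def Meet {V : Type} (G : SimpleGraph V) : Prop :=
  ∀ (a b : V) (p : G.Walk a a) (q : G.Walk b b), Odd p.length → Odd q.length →
    ∃ x, x ∈ p.support ∧ x ∈ q.support

theorem Meet.mono {V : Type} {G G' : SimpleGraph V} (h : G ≤ G') (hG : Meet G') : Meet G := by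
  intro a b p q hp hq
  obtain ⟨x, h1, h2⟩ := hG a b (p.mapLe h) (q.mapLe h) (by simpa using hp) (by simpa using hq)
  exact ⟨x, by simpa using h1, by simpa using h2⟩

/-- the vertex set of a component after deleting `S`. -/
def InC {V : Type} (G : SimpleGraph V) (S : Set V)
    (C : ((⊤ : G.Subgraph).deleteVerts S).coe.ConnectedComponent) (x : V) : Prop :=
  ∃ h : x ∈ ((⊤ : G.Subgraph).deleteVerts S).verts,
    ((⊤ : G.Subgraph).deleteVerts S).coe.connectedComponentMk ⟨x, h⟩ = C

theorem InC.not_mem {V : Type} {G : SimpleGraph V} {S : Set V}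
    {C : ((⊤ : G.Subgraph).deleteVerts S).coe.ConnectedComponent} {x : V}
    (h : InC G S C x) : x ∉ S := by
  obtain ⟨h, -⟩ := h
  simpa using h

theorem InC.adj {V : Type} {G : SimpleGraph V} {S : Set V}
    {C : ((⊤ : G.Subgraph).deleteVerts S).coe.ConnectedComponent} {x y : V}
    (h : InC G S C x) (hxy : G.Adj x y) (hy : y ∉ S) : InC G S C y := by
  obtain ⟨h1, h2⟩ := h
  have hy' : y ∈ ((⊤ : G.Subgraph).deleteVerts S).verts := by simpa using hy
  refine ⟨hy', ?_⟩
  rw [← h2, SimpleGraph.ConnectedComponent.eq]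
  refine SimpleGraph.Adj.reachable ?_
  rw [SimpleGraph.Subgraph.coe_adj, SimpleGraph.Subgraph.deleteVerts_adj]
  refine ⟨by simp, hy, by simp, ?_, ?_⟩
  · simpa using h1
  · simpa using hxy.symm

open Classical in
/-- Number of edges between a component and `S`. -/
noncomputable def FC (ends : E → Sym2 V) (S : Set V)
    (C : ((⊤ : (gr ends).Subgraph).deleteVerts S).coe.ConnectedComponent) : ℕ :=
  (univ.filter fun e => ∃ x y, InC (gr ends) S C x ∧ y ∈ S ∧ ends e = s(x, y)).card

open Classical in
/-- An odd component with few edges to `S` contains an odd closed walk. -/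
theorem odd_walk {r : ℕ} (ends : E → Sym2 V) (hl : ∀ e, ¬ (ends e).IsDiag)
    (hr : ∀ v, (univ.filter fun e => v ∈ ends e).card = r) (S : Set V)
    (C : ((⊤ : (gr ends).Subgraph).deleteVerts S).coe.ConnectedComponent)
    (hodd : Odd C.supp.ncard) (hF : FC ends S C < r) :
    ∃ (a : V) (p : (gr ends).Walk a a), Odd p.length ∧
      ∀ x ∈ p.support, InC (gr ends) S C x := by
  by_cases hcol : C.toSimpleGraph.Colorable 2
  · exfalso
    obtain ⟨χ⟩ := hcol
    set col : V → Prop := fun x => ∃ (h : x ∈ ((⊤ : (gr ends).Subgraph).deleteVerts S).verts)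
      (h' : (⟨x, h⟩ : ((⊤ : (gr ends).Subgraph).deleteVerts S).verts) ∈ C.supp),
      χ ⟨⟨x, h⟩, h'⟩ = 0 with hcoldef
    set cls : V → Fin 4 := fun x => if x ∈ S then 0 else
      if InC (gr ends) S C x then (if col x then 1 else 2) else 3 with hcls
    have k0 : ∀ x, cls x = 0 ↔ x ∈ S := by
      intro x; simp only [hcls]; split_ifs <;> simp_all
    have k1 : ∀ x, cls x = 1 ↔ InC (gr ends) S C x ∧ col x := by
      intro x
      have := @InC.not_mem V (gr ends) S C x
      simp only [hcls]; split_ifs <;> simp_all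
    have k2 : ∀ x, cls x = 2 ↔ InC (gr ends) S C x ∧ ¬ col x := by
      intro x
      have := @InC.not_mem V (gr ends) S C x
      simp only [hcls]; split_ifs <;> simp_all
    have k3 : ∀ x, cls x = 3 ↔ x ∉ S ∧ ¬ InC (gr ends) S C x := by
      intro x; simp only [hcls]; split_ifs <;> simp_all
    have hadj : ∀ e x y, ends e = s(x, y) → InC (gr ends) S C x → InC (gr ends) S C y →
        (col x ↔ ¬ col y) := by
      intro e x y he hx hy
      have h1 : (gr ends).Adj x y := (gr_adj ends hl x y).mpr ⟨e, he⟩
      obtain ⟨hx1, hx2⟩ := hx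
      obtain ⟨hy1, hy2⟩ := hy
      have h2 : ((⊤ : (gr ends).Subgraph).deleteVerts S).coe.Adj ⟨x, hx1⟩ ⟨y, hy1⟩ := by
        rw [SimpleGraph.Subgraph.coe_adj, SimpleGraph.Subgraph.deleteVerts_adj]
        refine ⟨by simp, by simpa using hx1, by simp, by simpa using hy1, by simpa using h1⟩
      have h3 := χ.valid (v := ⟨⟨x, hx1⟩, hx2⟩) (w := ⟨⟨y, hy1⟩, hy2⟩) (by
        exact h2)
      have e1 : col x ↔ χ ⟨⟨x, hx1⟩, hx2⟩ = 0 := by
        simp only [hcoldef]
        exact ⟨fun ⟨_, _, h⟩ => h, fun h => ⟨_, _, h⟩⟩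
      have e2 : col y ↔ χ ⟨⟨y, hy1⟩, hy2⟩ = 0 := by
        simp only [hcoldef]
        exact ⟨fun ⟨_, _, h⟩ => h, fun h => ⟨_, _, h⟩⟩
      rw [e1, e2]
      have : ∀ i j : Fin 2, i ≠ j → (i = 0 ↔ ¬ j = 0) := by decide
      exact this _ _ h3
    clear hcls hcoldef
    clear_value cls col
    have z11 : nn ends cls (1, 1) = 0 := nn_zero _ _ _ _ fun x y hx hy => by
      rw [k1] at hx hy
      refine wt_zero _ _ _ fun e he => ?_
      have := hadj e x y he hx.1 hy.1
      tauto
    have z22 : nn ends cls (2, 2) = 0 := nn_zero _ _ _ _ fun x y hx hy => by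
      rw [k2] at hx hy
      refine wt_zero _ _ _ fun e he => ?_
      have := hadj e x y he hx.1 hy.1
      tauto
    have z13 : nn ends cls (1, 3) = 0 := nn_zero _ _ _ _ fun x y hx hy => by
      rw [k1] at hx
      rw [k3] at hy
      refine wt_zero _ _ _ fun e he => ?_
      exact hy.2 (hx.1.adj ((gr_adj ends hl x y).mpr ⟨e, he⟩) hy.1)
    have z23 : nn ends cls (2, 3) = 0 := nn_zero _ _ _ _ fun x y hx hy => by
      rw [k2] at hx
      rw [k3] at hy
      refine wt_zero _ _ _ fun e he => ?_
      exact hy.2 (hx.1.adj ((gr_adj ends hl x y).mpr ⟨e, he⟩) hy.1)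
    have s1 := sum_nn ends hl hr cls 1
    have s2 := sum_nn ends hl hr cls 2
    rw [Fin.sum_univ_four, z11, z13] at s1
    rw [Fin.sum_univ_four, z22, z23, nn_comm ends cls 2 1] at s2
    have hFC : FC ends S C = nn ends cls (1, 0) + nn ends cls (2, 0) := by
      have h1 := card_pairs ends cls {(1, 0), (2, 0)} (by decide)
      rw [Finset.sum_pair (by decide)] at h1
      rw [← h1, FC]
      congr 1
      ext e
      simp only [mem_filter, mem_univ, true_and]
      refine exists_congr fun x => exists_congr fun y => ?_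
      simp only [mem_insert, mem_singleton, Prod.mk.injEq, k0, k1, k2]
      tauto
    have hcardC : C.supp.ncard = (univ.filter fun x => cls x = 1).card
        + (univ.filter fun x => cls x = 2).card := by
      rw [← Finset.card_union_of_disjoint]
      · rw [← Set.ncard_coe_finset, ← Set.ncard_image_of_injective C.supp Subtype.val_injective]
        congr 1
        ext x
        simp only [Set.mem_image, coe_union, coe_filter, mem_univ, true_and, Set.mem_union,
          Set.mem_setOf_eq, k1, k2]
        constructor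
        · rintro ⟨⟨x', hx'⟩, h, rfl⟩
          have : InC (gr ends) S C x' := ⟨hx', h⟩
          simp only
          tauto
        · intro h
          have h1 : InC (gr ends) S C x := by tauto
          obtain ⟨h2, h3⟩ := h1
          exact ⟨⟨x, h2⟩, h3, rfl⟩
      · rw [Finset.disjoint_left]
        intro x hx hx'
        simp only [mem_filter, mem_univ, true_and] at hx hx'
        rw [hx] at hx'
        exact absurd hx' (by decide)
    rw [hFC] at hF
    obtain ⟨m, hm⟩ := hodd
    rw [hcardC] at hm
    set n1 := (univ.filter fun x => cls x = 1).card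
    set n2 := (univ.filter fun x => cls x = 2).card
    rcases lt_trichotomy n1 n2 with h | h | h
    · obtain ⟨k, hk⟩ := Nat.exists_eq_add_of_lt h
      rw [hk] at s2
      have e1 : r * (n1 + k + 1) = r * n1 + r * k + r := by ring
      omega
    · omega
    · obtain ⟨k, hk⟩ := Nat.exists_eq_add_of_lt h
      rw [hk] at s1
      have e1 : r * (n2 + k + 1) = r * n2 + r * k + r := by ring
      omega
  · rw [SimpleGraph.two_colorable_iff_forall_loop_even] at hcol
    push Not at hcol
    obtain ⟨u, w, hw⟩ := hcol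
    rw [Nat.not_even_iff_odd] at hw
    refine ⟨_, (w.map C.toSimpleGraph_hom).map
      ((⊤ : (gr ends).Subgraph).deleteVerts S).hom, ?_, ?_⟩
    · rw [SimpleGraph.Walk.length_map, SimpleGraph.Walk.length_map]
      exact hw
    · intro x hx
      rw [SimpleGraph.Walk.support_map, List.mem_map] at hx
      obtain ⟨y, hy, rfl⟩ := hx
      rw [SimpleGraph.Walk.support_map, List.mem_map] at hy
      obtain ⟨z, hz, rfl⟩ := hy
      exact ⟨z.1.2, z.2⟩

open Classical in
theorem exists_pm {r : ℕ} (hr0 : 0 < r) (ends : E → Sym2 V) (hl : ∀ e, ¬ (ends e).IsDiag)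
    (hr : ∀ v, (univ.filter fun e => v ∈ ends e).card = r) (hV : Even (Fintype.card V))
    (hM : Meet (gr ends)) :
    ∃ M : (gr ends).Subgraph, M.IsPerfectMatching := by
  rw [SimpleGraph.tutte]
  intro S hS
  unfold SimpleGraph.IsTutteViolator at hS
  set G' := ((⊤ : (gr ends).Subgraph).deleteVerts S).coe with hG'
  have hfin : (G'.oddComponents).Finite := Set.toFinite _
  set O : Finset G'.ConnectedComponent := hfin.toFinset with hO
  have hOc : G'.oddComponents.ncard = O.card := by
    rw [hO, ← Set.ncard_eq_toFinset_card _ hfin]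
  have hmemO : ∀ C, C ∈ O ↔ Odd C.supp.ncard := by
    intro C
    rw [hO, Set.Finite.mem_toFinset]
    rfl
  -- parity
  have hpar : S.ncard + 2 ≤ O.card := by
    have h1 := G'.odd_ncard_oddComponents
    have h2 : Nat.card ((⊤ : (gr ends).Subgraph).deleteVerts S).verts + S.ncard
        = Fintype.card V := by
      rw [Nat.card_coe_set_eq, SimpleGraph.Subgraph.deleteVerts_verts,
        SimpleGraph.Subgraph.verts_top, ← Nat.card_eq_fintype_card, ← Set.ncard_univ]
      exact Set.ncard_sdiff_add_ncard_of_subset (Set.subset_univ _)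
    rw [hOc] at h1 hS
    by_contra hcon
    have h3 : O.card = S.ncard + 1 := by omega
    obtain ⟨m, hm⟩ := hV
    rw [h3] at h1
    rcases Nat.even_or_odd S.ncard with h4 | h4
    · have h5 : Odd (S.ncard + 1) := h4.add_one
      obtain ⟨a, ha⟩ := h1.mp h5
      obtain ⟨b, hb⟩ := h4
      omega
    · have h5 : ¬ Odd (S.ncard + 1) := by
        rw [Nat.not_odd_iff_even]
        exact h4.add_one
      rw [h1, Nat.not_odd_iff_even] at h5
      obtain ⟨a, ha⟩ := h5
      obtain ⟨b, hb⟩ := h4
      omega
  -- at most one odd component has few edges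
  have hone : (O.filter fun C => FC ends S C < r).card ≤ 1 := by
    rw [Finset.card_le_one]
    intro C hC C' hC'
    rw [mem_filter, hmemO] at hC hC'
    obtain ⟨a, p, hp, hpS⟩ := odd_walk ends hl hr S C hC.1 hC.2
    obtain ⟨b, q, hq, hqS⟩ := odd_walk ends hl hr S C' hC'.1 hC'.2
    obtain ⟨x, hx, hx'⟩ := hM a b p q hp hq
    obtain ⟨h1, h2⟩ := hpS x hx
    obtain ⟨h1', h2'⟩ := hqS x hx'
    exact h2.symm.trans h2'
  have hlow : r * (O.card - 1) ≤ ∑ C ∈ O, FC ends S C := by
    rw [← Finset.sum_filter_add_sum_filter_not O (fun C => FC ends S C < r)]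
    have h1 : (O.filter fun C => ¬ FC ends S C < r).card • r
        ≤ ∑ C ∈ O.filter (fun C => ¬ FC ends S C < r), FC ends S C := by
      refine Finset.card_nsmul_le_sum _ _ _ fun C hC => ?_
      rw [mem_filter] at hC
      omega
    have h2 : (O.filter fun C => FC ends S C < r).card
        + (O.filter fun C => ¬ FC ends S C < r).card = O.card :=
      Finset.card_filter_add_card_filter_not (s := O) (fun C => FC ends S C < r)
    have h3 : O.card - 1 ≤ (O.filter fun C => ¬ FC ends S C < r).card := by omega
    calc r * (O.card - 1) ≤ r * (O.filter fun C => ¬ FC ends S C < r).card :=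
          Nat.mul_le_mul_left _ h3
      _ = (O.filter fun C => ¬ FC ends S C < r).card • r := by rw [smul_eq_mul, mul_comm]
      _ ≤ _ := h1
      _ ≤ _ := Nat.le_add_left _ _
  have hup : ∑ C ∈ O, FC ends S C ≤ r * S.ncard := by
    unfold FC
    rw [← Finset.card_biUnion]
    · have h1 : (O.biUnion fun C => univ.filter fun e => ∃ x y, InC (gr ends) S C x ∧ y ∈ S ∧
          ends e = s(x, y)) ⊆ S.toFinset.biUnion fun y => univ.filter fun e => y ∈ ends e := by
        intro e he
        simp only [mem_biUnion, mem_filter, mem_univ, true_and] at he ⊢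
        obtain ⟨C, hC, x, y, h1, h2, h3⟩ := he
        refine ⟨y, by simpa using h2, ?_⟩
        rw [h3]
        exact Sym2.mem_mk_right x y
      refine (Finset.card_le_card h1).trans ?_
      refine Finset.card_biUnion_le.trans ?_
      rw [Finset.sum_congr rfl (fun y _ => hr y), Finset.sum_const, smul_eq_mul, mul_comm,
        Set.ncard_eq_toFinset_card']
    · intro C _ C' _ hne
      rw [Function.onFun, Finset.disjoint_left]
      intro e he he'
      simp only [mem_filter, mem_univ, true_and] at he he'
      obtain ⟨x, y, h1, h2, h3⟩ := he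
      obtain ⟨x', y', h1', h2', h3'⟩ := he'
      rw [h3, Sym2.eq_iff] at h3'
      rcases h3' with ⟨h4, h5⟩ | ⟨h4, h5⟩
      · subst h4
        obtain ⟨h6, h7⟩ := h1
        obtain ⟨h6', h7'⟩ := h1'
        exact hne (h7.symm.trans h7')
      · subst h4
        exact h1.not_mem h2'
  have h5 : r * (S.ncard + 1) ≤ r * (O.card - 1) := Nat.mul_le_mul_left _ (by omega)
  rw [mul_add] at h5
  omega

open Classical in
/-- The theorem for closed walks. -/
theorem noTwoOdd (r : ℕ) : ∀ (E : Type) [Fintype E] (ends : E → Sym2 V),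
    (∀ e, ¬ (ends e).IsDiag) → (∀ v, (univ.filter fun e => v ∈ ends e).card = r) →
    Even (Fintype.card V) → Meet (gr ends) → ∃ c : E → Fin r, Proper ends c := by
  induction r with
  | zero =>
    intro E _ ends hl hr _ _
    have hE : ∀ e : E, False := by
      intro e
      obtain ⟨x, y, hxy⟩ : ∃ x y, ends e = s(x, y) := by
        induction h : ends e with
        | _ x y => exact ⟨x, y, rfl⟩
      have h1 := hr x
      rw [Finset.card_eq_zero, Finset.filter_eq_empty_iff] at h1
      exact h1 (mem_univ e) (by rw [hxy]; exact Sym2.mem_mk_left x y)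
    exact ⟨fun e => (hE e).elim, fun e => (hE e).elim⟩
  | succ r ih =>
    intro E _ ends hl hr hV hM
    obtain ⟨M, hM1, hM2⟩ := exists_pm (Nat.succ_pos r) ends hl hr hV hM
    have hex : ∀ v, ∃! w, M.Adj v w := fun v => hM1 (hM2 v)
    choose m hm hmu using hex
    have hmm : ∀ v, m (m v) = v := fun v => (hmu (m v) v (hm v).symm).symm
    rcases isEmpty_or_nonempty E with hE | hE
    · exact ⟨fun e => isEmptyElim e, fun e => isEmptyElim e⟩
    have hg : ∀ v, ends (Function.invFun ends s(v, m v)) = s(v, m v) := by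
      intro v
      apply Function.invFun_eq
      exact (gr_adj ends hl v (m v)).mp (M.adj_sub (hm v))
    set F : E → Prop := fun e => ∃ v, e = Function.invFun ends s(v, m v) with hF
    have hkey : ∀ v e, F e → v ∈ ends e → e = Function.invFun ends s(v, m v) := by
      rintro v e ⟨x, rfl⟩ hv
      rw [hg x, Sym2.mem_iff] at hv
      rcases hv with rfl | rfl
      · rfl
      · rw [hmm x, Sym2.eq_swap]
    refine combine ends F 1 r (r + 1) (by ring) ?_ ?_
    · refine ⟨fun _ => 0, ?_⟩
      rintro ⟨e₁, h1⟩ ⟨e₂, h2⟩ hne ⟨v, hv1, hv2⟩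
      exfalso
      apply hne
      exact Subtype.ext ((hkey v e₁ h1 hv1).trans (hkey v e₂ h2 hv2).symm)
    · refine ih {e // ¬ F e} (fun e => ends e.1) (fun e => hl e.1) ?_ hV ?_
      · intro v
        refine (card_sub (fun e => v ∈ ends e) (fun e => ¬ F e)).trans ?_
        have h1 := Finset.card_filter_add_card_filter_not (s := univ.filter fun e => v ∈ ends e)
          (fun e => F e)
        rw [Finset.filter_filter, Finset.filter_filter, hr v] at h1
        have h2 : (univ.filter fun e => v ∈ ends e ∧ F e) = {Function.invFun ends s(v, m v)} := by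
          ext e
          simp only [mem_filter, mem_univ, true_and, mem_singleton]
          constructor
          · rintro ⟨h3, h4⟩
            exact hkey v e h4 h3
          · rintro rfl
            refine ⟨?_, v, rfl⟩
            rw [hg v]
            exact Sym2.mem_mk_left _ _
        have h4 : (univ.filter fun e => ¬ F e ∧ v ∈ ends e)
            = univ.filter fun e => v ∈ ends e ∧ ¬ F e := by
          ext e
          simp [and_comm]
        rw [h2, Finset.card_singleton] at h1
        rw [h4]
        omega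
      · refine Meet.mono ?_ hM
        intro x y hxy
        rw [gr_adj ends hl]
        rw [gr_adj (fun e : {e // ¬ F e} => ends e.1) (fun e => hl e.1)] at hxy
        obtain ⟨e, he⟩ := hxy
        exact ⟨e.1, he⟩

end Pool.Agent.Helper51.RG
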